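import Mathlib

set_option autoImplicit false

namespace Pool.Agent.H2a07

open Finset

/-- Gilbert–Varshamov bound for permutation codes -/
lemma gv (m d E : ℕ) (hd : d ≤ m) (h : E * (m ^ d * m ^ d) ≤ m.factorial) :
    ∃ c : ℕ → Equiv.Perm (Fin m), c 0 = 1 ∧ ∀ a < E, ∀ a' < E, a ≠ a' →
      d < (univ.filter fun t => c a t ≠ c a' t).card := by
  obtain ⟨C, hC, hmax⟩ := exists_max_image (univ.filter fun C : Finset (Equiv.Perm (Fin m)) =>
    ∀ σ ∈ C, ∀ τ ∈ C, σ ≠ τ → d < (univ.filter fun t => σ t ≠ τ t).card) card ⟨∅, by simp⟩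
  replace hC := (mem_filter.mp hC).2
  have h1 : ∀ τ : Equiv.Perm (Fin m), ∃ σ ∈ C, (univ.filter fun t => τ t ≠ σ t).card ≤ d := by
    intro τ
    by_contra hc
    push Not at hc
    have a1 : τ ∉ C := fun hτ => by simpa using hc τ hτ
    have := hmax (insert τ C) (mem_filter.mpr ⟨mem_univ _, fun σ hσ σ' hσ' hne => by
      rcases mem_insert.mp hσ with rfl | k1 <;> rcases mem_insert.mp hσ' with rfl | k2
      · exact absurd rfl hne
      · exact hc _ k2
      · simpa only [ne_comm] using hc _ k1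
      · exact hC _ k1 _ k2 hne⟩)
    rw [card_insert_of_notMem a1] at this
    omega
  have h2 : m.factorial ≤ C.card * (m ^ d * m ^ d) := by
    have a1 : (univ : Finset (Equiv.Perm (Fin m))) ⊆ C.biUnion fun σ => (powersetCard d univ).biUnion
        fun T => univ.filter fun τ => ∀ t, t ∉ T → τ t = σ t := by
      intro τ _
      obtain ⟨σ, b1, b2⟩ := h1 τ
      obtain ⟨T, b3, -, b4⟩ := exists_subsuperset_card_eq (subset_univ _) b2 (by simpa using hd)
      refine mem_biUnion.mpr ⟨σ, b1, mem_biUnion.mpr ⟨T, mem_powersetCard_univ.mpr b4,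
        mem_filter.mpr ⟨mem_univ _, fun t ht => ?_⟩⟩⟩
      by_contra hne
      exact ht (b3 (mem_filter.mpr ⟨mem_univ _, hne⟩))
    have a2 := card_le_card a1
    rw [card_univ, Fintype.card_perm, Fintype.card_fin] at a2
    refine a2.trans (card_biUnion_le_card_mul _ _ _ fun σ _ =>
      (card_biUnion_le_card_mul _ _ (m ^ d) fun T hT => ?_).trans (Nat.mul_le_mul_right _ ?_))
    · have := card_le_card_of_injOn (s := univ.filter fun τ : Equiv.Perm (Fin m) => ∀ t, t ∉ T → τ t = σ t)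
        (t := (univ : Finset (T → Fin m))) (fun τ t => τ t) (fun _ _ => mem_coe.mpr (mem_univ _))
        fun τ hτ τ' hτ' hh => Equiv.ext fun t => by
          by_cases ht : t ∈ T
          · exact congrFun hh ⟨t, ht⟩
          · rw [(mem_filter.mp hτ).2 t ht, (mem_filter.mp hτ').2 t ht]
      simpa [mem_powersetCard_univ.mp hT] using this
    · rw [card_powersetCard, card_univ, Fintype.card_fin]; exact Nat.choose_le_pow m d
  rcases Nat.eq_zero_or_pos E with rfl | hE
  · exact ⟨fun _ => 1, rfl, by simp⟩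
  have h3 : E ≤ C.card := by
    refine Nat.le_of_mul_le_mul_right (h.trans h2) (Nat.pos_of_ne_zero fun h0 => ?_)
    rw [h0] at h2
    exact absurd h2 (by simpa using (Nat.factorial_pos m).ne')
  let g : ℕ → Equiv.Perm (Fin m) := fun a => if ha : a < C.card then C.equivFin.symm ⟨a, ha⟩ else 1
  refine ⟨fun a => (g 0)⁻¹ * g a, by simp, fun a ha a' ha' hne => ?_⟩
  simp only [Equiv.Perm.mul_apply, ne_eq, EmbeddingLike.apply_eq_iff_eq, g,
    dif_pos (ha.trans_le h3), dif_pos (ha'.trans_le h3)]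
  exact hC _ (C.equivFin.symm _).2 _ (C.equivFin.symm _).2 fun hh => hne (by
    simpa using C.equivFin.symm.injective (Subtype.ext hh))

/-- erasure patterns of an iterated code -/
lemma pat (P : Finset (Finset ℕ)) (N : ℕ) (hP : ∀ S ∈ P, ∀ s ∈ S, s < N) (ε δ : ℝ) (hε : 0 ≤ ε)
    (hδ : ∑ S ∈ P, ε ^ S.card ≤ δ) (m : ℕ) : ∀ r, ∃ F : Finset (Finset ℕ),
      (∀ S ∈ F, ∀ s ∈ S, s < m * N) ∧ ∑ S ∈ F, ε ^ S.card ≤ m.choose r * δ ^ r ∧ ∀ Δ : ℕ → Prop,
      ∀ T ⊆ range m, r ≤ T.card → (∀ t ∈ T, ∃ S ∈ P, ∀ s ∈ S, Δ (t * N + s)) →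
        ∃ S ∈ F, ∀ s ∈ S, Δ s := by
  have hδ0 : 0 ≤ δ := le_trans (by positivity) hδ
  induction m with
  | zero =>
    rintro (_ | r)
    · exact ⟨{∅}, by simp, by simp, by simp⟩
    · exact ⟨∅, by simp, by simp, by simp⟩
  | succ m ih =>
    rintro (_ | r)
    · exact ⟨{∅}, by simp, by simp, by simp⟩
    obtain ⟨F1, a1, a2, a3⟩ := ih (r + 1)
    obtain ⟨F2, b1, b2, b3⟩ := ih r
    refine ⟨F1 ∪ (F2 ×ˢ P).image fun p => p.1 ∪ p.2.image (m * N + ·), ?_, ?_, ?_⟩
    · intro S hS s hs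
      rw [add_mul, one_mul]
      rcases mem_union.mp hS with h | h
      · have := a1 S h s hs; omega
      · obtain ⟨p, hp, rfl⟩ := mem_image.mp h
        rcases mem_union.mp hs with h | h
        · have := b1 _ (mem_product.mp hp).1 s h; omega
        · obtain ⟨s', h1, rfl⟩ := mem_image.mp h
          have := hP _ (mem_product.mp hp).2 s' h1; omega
    · have c1 := sum_union_inter (s₁ := F1)
        (s₂ := (F2 ×ˢ P).image fun p => p.1 ∪ p.2.image (m * N + ·)) (f := fun S => ε ^ S.card)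
      have c2 : ∑ S ∈ (F2 ×ˢ P).image fun p => p.1 ∪ p.2.image (m * N + ·), ε ^ S.card ≤
          m.choose r * δ ^ r * δ := by
        refine (sum_image_le_of_nonneg fun _ _ => by positivity).trans
          (le_trans (le_of_eq ?_) (mul_le_mul b2 hδ (by positivity) (by positivity)))
        rw [sum_mul_sum, sum_product]
        refine sum_congr rfl fun S hS => sum_congr rfl fun S' _ => ?_
        rw [card_union_of_disjoint, card_image_of_injective _ (add_right_injective _), pow_add]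
        refine disjoint_left.mpr fun s h1 h2 => ?_
        obtain ⟨s', -, rfl⟩ := mem_image.mp h2
        have := b1 S hS _ h1
        omega
      have c3 : 0 ≤ ∑ S ∈ F1 ∩ (F2 ×ˢ P).image fun p => p.1 ∪ p.2.image (m * N + ·), ε ^ S.card := by
        positivity
      rw [Nat.choose_succ_succ', pow_succ]
      rw [pow_succ] at a2
      push_cast
      linarith
    · intro Δ T hT hr hΔ
      have c1 : T.erase m ⊆ range m := fun t ht => by
        have := mem_range.mp (hT (mem_of_mem_erase ht))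
        have := ne_of_mem_erase ht
        exact mem_range.mpr (by omega)
      by_cases hm : m ∈ T
      · obtain ⟨S, d1, d2⟩ := b3 Δ _ c1 (by rw [card_erase_of_mem hm]; omega)
          fun t ht => hΔ t (mem_of_mem_erase ht)
        obtain ⟨S', d3, d4⟩ := hΔ m hm
        refine ⟨_, mem_union_right _ (mem_image.mpr ⟨(S, S'), mem_product.mpr ⟨d1, d3⟩, rfl⟩),
          fun s hs => ?_⟩
        rcases mem_union.mp hs with h | h
        · exact d2 s h
        · obtain ⟨s', h1, rfl⟩ := mem_image.mp h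
          exact d4 s' h1
      · rw [erase_eq_of_notMem hm] at c1
        obtain ⟨S, d1, d2⟩ := a3 Δ T c1 hr hΔ
        exact ⟨S, mem_union_left _ d1, d2⟩

/-- parameters: logarithm of the code size and block length -/
def par : ℕ → ℕ × ℕ
  | 0 => (64, 64)
  | k + 1 => (2 ^ (par k).1 * ((par k).1 - 2) - 2 * (2 ^ ((par k).1 - (k + 3)) * (par k).1),
      (par k).2 * 2 ^ (par k).1)

lemma par_inv (k : ℕ) : (par k).2 * (2 ^ k + 3) ≤ 4 * 2 ^ k * (par k).1 ∧ (par k).1 ≤ (par k).2 ∧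
    64 * 2 ^ k ≤ (par k).2 ∧ ∃ n, (par k).2 = 2 ^ n := by
  induction k with
  | zero => exact ⟨by simp [par], by simp [par], by simp [par], 6, by simp [par]⟩
  | succ k ih =>
    obtain ⟨h1, h2, h3, n, h4⟩ := ih
    simp only [par]
    generalize (par k).1 = e at *
    generalize (par k).2 = N at *
    have a0 := Nat.lt_two_pow_self (n := k)
    have a1 : 16 * 2 ^ k ≤ e := by nlinarith
    obtain ⟨f, rfl⟩ : ∃ f, e = k + 3 + f := ⟨e - (k + 3), by omega⟩
    rw [Nat.add_sub_cancel_left, pow_add, pow_add, pow_succ 2 k]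
    have a2 := Nat.two_pow_pos f
    refine ⟨?_, ?_, ?_, n + (k + 3 + f), by rw [h4]; ring⟩
    · obtain ⟨g, hg⟩ : ∃ g, k + 3 + f = g + 2 := ⟨k + 1 + f, by omega⟩
      rw [hg] at h1 h2 ⊢
      generalize 2 ^ k = u at *
      generalize 2 ^ f = d at *
      rw [Nat.add_sub_cancel, show u * 2 ^ 3 * d * g = d * (8 * u * g) by ring,
        show 2 * (d * (g + 2)) = d * (2 * (g + 2)) by ring, ← Nat.mul_sub]
      have a3 : N * (u * 2 + 3) ≤ 8 * u * g - 2 * (g + 2) := Nat.le_sub_of_add_le (by nlinarith)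
      calc _ = 8 * u * d * (N * (u * 2 + 3)) := by ring
        _ ≤ 8 * u * d * (8 * u * g - 2 * (g + 2)) := Nat.mul_le_mul_left _ a3
        _ = _ := by ring
    · rw [mul_comm N]
      exact (Nat.sub_le _ _).trans (Nat.mul_le_mul_left _ (by omega))
    · nlinarith [Nat.mul_pos (Nat.two_pow_pos k) a2]

/-- index of the `i`-th word of level `k` -/
def sig (m : ℕ → ℕ) (hm : ∀ k, 1 < m k) (c : ℕ → ℕ → ℕ → ℕ) (k i : ℕ) : ℕ :=
  if _ : i = 0 then 0 else c k (sig m hm c (k + 1) (i / m k)) (i % m k)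
termination_by i
decreasing_by exact Nat.div_lt_self (by omega) (hm k)

lemma code : ∃ (N m : ℕ → ℕ) (σ : ℕ → ℕ → ℕ) (a : ℕ → Bool), ∀ k, (∃ n, N k = 2 ^ n) ∧ k < N k ∧
    N (k + 1) = N k * m k ∧ 2 ^ N k ≤ m k ^ 4 ∧
    (∀ u, Set.BijOn (fun t => σ k (u * m k + t)) (range (m k)) (range (m k))) ∧
    (∀ u u', σ k u = σ k u' → ∀ s < N k, a (u * N k + s) = a (u' * N k + s)) ∧
    ∃ P : Finset (Finset ℕ), (∀ S ∈ P, ∀ s ∈ S, s < N k) ∧
      ∑ S ∈ P, (1 / 4096 : ℝ) ^ S.card ≤ (1 / 2) ^ (k + 6) ∧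
      ∀ u u', σ k u ≠ σ k u' → ∃ S ∈ P, ∀ s ∈ S, a (u * N k + s) ≠ a (u' * N k + s) := by
  obtain ⟨e, N, e0, N0, es, Ns, h1, h2, h3⟩ : ∃ e N : ℕ → ℕ, e 0 = 64 ∧ N 0 = 64 ∧
      (∀ k, e (k + 1) = 2 ^ e k * (e k - 2) - 2 * (2 ^ (e k - (k + 3)) * e k)) ∧
      (∀ k, N (k + 1) = N k * 2 ^ e k) ∧ (∀ k, N k ≤ 4 * e k) ∧ (∀ k, 64 * (k + 1) ≤ N k) ∧
      ∀ k, ∃ n, N k = 2 ^ n := by
    refine ⟨fun k => (par k).1, fun k => (par k).2, rfl, rfl, fun _ => rfl, fun _ => rfl, fun k => ?_,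
      fun k => ?_, fun k => (par_inv k).2.2.2⟩
    · refine Nat.le_of_mul_le_mul_right (c := 2 ^ k) ?_ (by positivity)
      nlinarith [(par_inv k).1]
    · nlinarith [(par_inv k).2.2.1, Nat.lt_two_pow_self (n := k)]
  have h4 : ∀ k, 16 * (k + 1) ≤ e k := fun k => by nlinarith [h1 k, h2 k]
  have h5 : ∀ k, 2 ^ e k = 2 ^ (k + 3) * 2 ^ (e k - (k + 3)) := fun k => by
    rw [← pow_add, Nat.add_sub_cancel' (by have := h4 k; omega)]
  have hm : ∀ k, 1 < 2 ^ e k := fun k => Nat.one_lt_two_pow (by have := h4 k; omega)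
  choose c c0 c1 using fun k => gv (2 ^ e k) (2 ^ (e k - (k + 3))) (2 ^ e (k + 1))
    (Nat.pow_le_pow_right (by norm_num) (Nat.sub_le _ _)) (by
      have a1 : 2 * (2 ^ (e k - (k + 3)) * e k) ≤ 2 ^ e k * (e k - 2) := by
        rw [h5 k, mul_comm (2 ^ (k + 3)), mul_left_comm, mul_assoc, pow_add]
        have := h4 k
        exact Nat.mul_le_mul_left _ (le_trans (by omega)
          (Nat.mul_le_mul_right _ (Nat.le_mul_of_pos_left _ (Nat.two_pow_pos k))))
      rw [← pow_add, ← pow_mul, ← pow_add, es, ← two_mul, mul_left_comm (e k), mul_comm (e k),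
        Nat.sub_add_cancel a1]
      have a2 := Real.pow_div_factorial_le_exp ((2 ^ e k : ℕ) : ℝ) (by positivity) (2 ^ e k)
      have a3 : (2 : ℝ) ^ e k = 2 ^ (e k - 2) * 4 := by
        rw [show (4 : ℝ) = 2 ^ 2 by norm_num, ← pow_add, Nat.sub_add_cancel (by have := h4 k; omega)]
      rw [div_le_iff₀ (by positivity), ← Real.exp_one_pow, Nat.cast_pow, Nat.cast_ofNat, a3,
        mul_pow, mul_comm] at a2
      have a4 := a2.trans (mul_le_mul_of_nonneg_right (pow_le_pow_left₀ (by positivity)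
        (Real.exp_one_lt_d9.le.trans (by norm_num : _ ≤ (4 : ℝ))) _) (by positivity))
      rw [mul_comm (2 ^ e k), pow_mul]
      exact_mod_cast le_of_mul_le_mul_left a4 (by positivity))
  obtain ⟨σ, s0, s1⟩ : ∃ σ : ℕ → ℕ → ℕ, (∀ k u, σ k u < 2 ^ e k) ∧ ∀ k u (t : Fin (2 ^ e k)),
      σ k (u * 2 ^ e k + t) = c k (σ (k + 1) u) t := by
    have s1 : ∀ k i, sig _ hm (fun k a t => if h : t < 2 ^ e k then c k a ⟨t, h⟩ else 0) k i =
        c k (sig _ hm (fun k a t => if h : t < 2 ^ e k then c k a ⟨t, h⟩ else 0) (k + 1) (i / 2 ^ e k))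
          ⟨i % 2 ^ e k, Nat.mod_lt _ (by positivity)⟩ := by
      intro k i
      rw [sig]
      split_ifs with h h'
      · subst h
        rw [sig]; simp [c0]
      · rfl
      · exact absurd (Nat.mod_lt _ (by positivity)) h'
    refine ⟨_, fun k u => (s1 k u).trans_lt (Fin.isLt _), fun k u t => ?_⟩
    have q1 : (u * 2 ^ e k + t) / 2 ^ e k = u := by
      rw [mul_comm, Nat.mul_add_div (by positivity), Nat.div_eq_of_lt t.2, add_zero]
    have q2 : (u * 2 ^ e k + t) % 2 ^ e k = t := by simp [Nat.mod_eq_of_lt t.2]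
    rw [s1]
    simp only [q1, q2, Fin.eta]
  refine ⟨N, fun k => 2 ^ e k, σ, fun i => (σ 0 (i / 64)).testBit (i % 64), fun k =>
    ⟨h3 k, by have := h2 k; omega, Ns k, ?_, fun u => ?_, ?_⟩⟩
  · rw [← pow_mul, mul_comm]; exact Nat.pow_le_pow_right (by norm_num) (h1 k)
  · refine (image_eq_iff_bijOn_of_card le_rfl).mp (Subset.antisymm (fun v hv => ?_) fun v hv => ?_)
    · obtain ⟨t, -, rfl⟩ := mem_image.mp hv
      exact mem_range.mpr (s0 _ _)
    · exact mem_image.mpr ⟨(c k (σ (k + 1) u)).symm ⟨v, mem_range.mp hv⟩, mem_range.mpr (Fin.isLt _),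
        by simp [s1]⟩
  generalize ha : (fun i => (σ 0 (i / 64)).testBit (i % 64)) = a
  induction k with
  | zero =>
    have a1 : ∀ u, ∀ s < 64, a (u * 64 + s) = (σ 0 u).testBit s := fun u s hs => by
      simp only [← ha]
      rw [show (u * 64 + s) / 64 = u by omega, show (u * 64 + s) % 64 = s by omega]
    rw [N0]
    refine ⟨fun u u' h s hs => by rw [a1 u s hs, a1 u' s hs, h], (range 64).image fun s => {s},
      by simp, (sum_image_le_of_nonneg fun _ _ => by positivity).trans (by simp; norm_num),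
      fun u u' h => ?_⟩
    by_contra hc
    refine h (Nat.eq_of_testBit_eq fun s => ?_)
    by_cases hs : s < 64
    · rw [← a1 u s hs, ← a1 u' s hs]
      by_contra hne
      exact hc ⟨{s}, mem_image_of_mem _ (mem_range.mpr hs), by simpa using hne⟩
    · have : 2 ^ e 0 ≤ 2 ^ s := Nat.pow_le_pow_right (by norm_num) (by omega)
      rw [Nat.testBit_lt_two_pow ((s0 0 u).trans_le this), Nat.testBit_lt_two_pow ((s0 0 u').trans_le this)]
  | succ k ih =>
    obtain ⟨i1, P, i2, i3, i4⟩ := ih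
    have a0 : ∀ u t s, u * N (k + 1) + (t * N k + s) = (u * 2 ^ e k + t) * N k + s := fun u t s => by
      rw [Ns]; ring
    have hN : 0 < N k := by have := h2 k; omega
    refine ⟨fun u u' h s hs => ?_, ?_⟩
    · have b1 : s / N k < 2 ^ e k := Nat.div_lt_of_lt_mul (Ns k ▸ hs)
      rw [← Nat.div_add_mod' s (N k), a0, a0]
      exact i1 _ _ (by rw [s1 k u ⟨_, b1⟩, s1 k u' ⟨_, b1⟩, h]) _ (Nat.mod_lt _ hN)
    obtain ⟨F, f1, f2, f3⟩ := pat P (N k) i2 _ _ (by norm_num) i3 (2 ^ e k) (2 ^ (e k - (k + 3)) + 1)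
    refine ⟨F, by rwa [Ns, mul_comm], f2.trans ?_, fun u u' h => ?_⟩
    · have b0 : k + 1 + 6 ≤ 2 ^ (e k - (k + 3)) + 1 := by
        have := Nat.lt_two_pow_self (n := e k - (k + 3))
        have := h4 k
        omega
      refine le_trans ?_ (pow_le_pow_of_le_one (by norm_num) (by norm_num) b0)
      have b1 : ((2 ^ e k : ℕ) : ℝ) * (4 * (1 / 2) ^ (k + 6)) ≤ (2 ^ (e k - (k + 3)) + 1 : ℕ) * (1 / 2) := by
        rw [h5 k, one_div, inv_pow, pow_add _ k, pow_add _ k]
        push_cast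
        field_simp
        linarith
      generalize 2 ^ (e k - (k + 3)) + 1 = r at *
      generalize 2 ^ e k = m at *
      have b2 := Real.pow_div_factorial_le_exp _ (by positivity : (0 : ℝ) ≤ m * (4 * (1 / 2) ^ (k + 6))) r
      have b3 : Real.exp (r * (1 / 2)) ≤ 2 ^ r := by
        rw [Real.exp_nat_mul]
        refine pow_le_pow_left₀ (by positivity) ?_ r
        rw [← Real.le_log_iff_exp_le (by norm_num)]
        linarith [Real.log_two_gt_d9]
      have b4 := b2.trans ((Real.exp_le_exp.mpr b1).trans b3)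
      refine (mul_le_mul_of_nonneg_right (Nat.choose_le_pow_div r m) (by positivity)).trans ?_
      generalize ((1 : ℝ) / 2) ^ (k + 6) = δ at *
      rw [mul_pow, mul_pow, show (4 : ℝ) ^ r = 2 ^ r * 2 ^ r by rw [← mul_pow]; norm_num] at b4
      rw [one_div, inv_pow, ← one_div, le_div_iff₀ (by positivity)]
      refine le_of_mul_le_mul_right (le_trans (le_of_eq (by ring)) (b4.trans (one_mul _).ge))
        (by positivity : (0 : ℝ) < 2 ^ r)
    · refine f3 (fun s => a (u * N (k + 1) + s) ≠ a (u' * N (k + 1) + s))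
        ((univ.filter fun t => c k (σ (k + 1) u) t ≠ c k (σ (k + 1) u') t).map Fin.valEmbedding)
        (fun t ht => ?_) ((card_map _).symm ▸ c1 k _ (s0 _ _) _ (s0 _ _) h) fun t ht => ?_
      · obtain ⟨t, -, rfl⟩ := mem_map.mp ht
        exact mem_range.mpr t.2
      · obtain ⟨t, b1, rfl⟩ := mem_map.mp ht
        simp only [a0]
        exact i4 _ _ (by
          rw [Fin.valEmbedding_apply, s1, s1]; exact fun hh => (mem_filter.mp b1).2 (Fin.ext hh))

end Pool.Agent.H2a07
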