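import Mathlib
import Pool.Agent.H.MP_2a076f_an.A

set_option autoImplicit false

namespace Pool.Agent.H2a07

open Finset

/-- exact divisibility by a power of two -/
def VV (x : ℤ) (k : ℕ) : Prop := (2 : ℤ) ^ k ∣ x ∧ ¬ (2 : ℤ) ^ (k + 1) ∣ x

/-- the period-doubling marker -/
def tt (i : ℕ) : Prop := ∃ k, Odd k ∧ VV (i + 1) k

lemma VV.uniq {x : ℤ} {k k' : ℕ} (h : VV x k) (h' : VV x k') : k = k' := by
  by_contra hc
  rcases Nat.lt_or_gt_of_ne hc with a | a
  · exact h.2 ((pow_dvd_pow 2 a).trans h'.1)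
  · exact h'.2 ((pow_dvd_pow 2 a).trans h.1)

lemma VV.congr {x y : ℤ} {k : ℕ} (h : VV x k) (hd : (2 : ℤ) ^ (k + 1) ∣ y - x) : VV y k :=
  ⟨by simpa using dvd_add ((pow_dvd_pow 2 k.le_succ).trans hd) h.1,
    fun hy => h.2 (by simpa using dvd_sub hy hd)⟩

lemma tt_congr {i i' n : ℕ} (h : (2 : ℤ) ^ n ∣ i' - i) (h' : ¬ (2 : ℤ) ^ n ∣ i + 1) : tt i ↔ tt i' := by
  have key : ∀ i i' : ℕ, (2 : ℤ) ^ n ∣ i' - i → ¬ (2 : ℤ) ^ n ∣ i + 1 → tt i → tt i' := by
    rintro i i' h h' ⟨k, a1, a2⟩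
    have : k + 1 ≤ n := by
      by_contra hc
      exact h' ((pow_dvd_pow 2 (by omega)).trans a2.1)
    exact ⟨k, a1, a2.congr (by simpa using (pow_dvd_pow 2 this).trans h)⟩
  exact ⟨key i i' h h', key i' i (dvd_sub_comm.mp h) fun hh => h' (by
    have := dvd_sub hh h
    rwa [show (i' : ℤ) + 1 - (i' - i) = i + 1 by ring] at this)⟩

lemma tt_sep {i i' n : ℕ} (h : ¬ (2 : ℤ) ^ n ∣ i' - i) : ∃ s < 2 * 2 ^ n, ∀ y : ℕ,
    tt (i + (s + 2 * 2 ^ n * y)) ∧ ¬ tt (i' + (s + 2 * 2 ^ n * y)) := by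
  obtain ⟨v, hv, h1⟩ : ∃ v < n, VV (i' - i) v := by
    induction n with
    | zero => simp at h
    | succ n ih =>
      by_cases hc : (2 : ℤ) ^ n ∣ i' - i
      · exact ⟨n, by omega, hc, h⟩
      · exact (ih hc).imp fun v hv => ⟨by omega, hv.2⟩
  have key : ∀ x x' : ℤ, VV (x' - x) v → ∃ s < 2 * 2 ^ n, ∀ y : ℕ,
      VV (x + (s + 2 * 2 ^ n * y : ℕ) + 1) (v + 1) ∧ VV (x' + (s + 2 * 2 ^ n * y : ℕ) + 1) v := by
    intro x x' hx
    have a0 : (0 : ℤ) < 2 * 2 ^ n := by positivity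
    have a1 := Int.emod_nonneg (2 ^ (v + 1) - x - 1) a0.ne'
    have a2 := Int.emod_lt_of_pos (2 ^ (v + 1) - x - 1) a0
    have a3 := Int.mul_ediv_add_emod (2 ^ (v + 1) - x - 1) (2 * 2 ^ n)
    obtain ⟨s, hs⟩ := Int.eq_ofNat_of_zero_le a1
    rw [hs] at a2 a3
    refine ⟨s, by exact_mod_cast a2, fun y => ?_⟩
    have a4 : VV (x + (s + 2 * 2 ^ n * y : ℕ) + 1) (v + 1) :=
      VV.congr (x := 2 ^ (v + 1)) ⟨dvd_rfl, fun hh => by
        have := (pow_dvd_pow_iff (by norm_num) (by decide)).mp hh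
        omega⟩ ((pow_dvd_pow 2 (show v + 1 + 1 ≤ n + 1 by omega)).trans
          ⟨y - (2 ^ (v + 1) - x - 1) / (2 * 2 ^ n), by push_cast; linear_combination a3⟩)
    exact ⟨a4, hx.congr (by convert a4.1 using 1; ring)⟩
  rcases Nat.even_or_odd v with he | ho
  · obtain ⟨s, a1, a2⟩ := key i i' h1
    refine ⟨s, a1, fun y => ⟨⟨v + 1, he.add_one, by exact_mod_cast (a2 y).1⟩, fun ⟨k, b1, b2⟩ => ?_⟩⟩
    rw [b2.uniq (by exact_mod_cast (a2 y).2)] at b1
    exact Nat.not_odd_iff_even.mpr he b1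
  · obtain ⟨s, a1, a2⟩ := key i' i ⟨dvd_sub_comm.mp h1.1, fun hh => h1.2 (dvd_sub_comm.mp hh)⟩
    refine ⟨s, a1, fun y => ⟨⟨v, ho, by exact_mod_cast (a2 y).2⟩, fun ⟨k, b1, b2⟩ => ?_⟩⟩
    rw [b2.uniq (by exact_mod_cast (a2 y).1)] at b1
    exact Nat.not_odd_iff_even.mpr ho.add_one b1

open Classical in
/-- the basic sequence built from the data bits `a` -/
noncomputable def zz (a : ℕ → Bool) (n : ℕ) : ℕ :=
  if n % 3 = 0 then (if tt (n / 3) then 32768 else 16384)
  else if n % 3 = (if a (n / 3) then 1 else 2) then 8192 else 2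

/-- decodability from the digits -/
def Dec (z : ℕ → ℕ) : Prop := ∀ η : ℝ, 0 < η → ∀ l : ℕ, ∃ P W : ℕ, P + l ≤ W ∧ (l + 3 : ℝ) ≤ η * P ∧
  ∀ j, j % P + l + 3 ≤ P → ∃ (F : Finset (Finset ℕ)) (low : ℕ → ℕ), (∀ S ∈ F, ∀ s ∈ S, s < W) ∧
    ∑ S ∈ F, ∏ s ∈ S, (low s : ℝ) / z (j + s) ≤ η ∧ ∀ (j' : ℕ) (D : ℕ → ℕ),
      (∀ s < W, D s < z (j' + s)) → (∃ s < l, z (j + P + s) ≠ z (j' + P + s)) →
        ∃ S ∈ F, ∀ s ∈ S, D s < low s

/-- the hierarchical block structure -/
def Hier (z : ℕ → ℕ) : Prop := ∀ k, ∃ (P m : ℕ) (σ : ℕ → ℕ), k < P ∧ 2 ^ P ≤ m ^ 12 ∧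
  (∀ u, Set.BijOn (fun t => σ (u * m + t)) (range m) (range m)) ∧
  (∀ u u', σ u = σ u' → ∀ s, s + 3 < P → z (u * P + s) = z (u' * P + s)) ∧
  ∀ u u', σ u ≠ σ u' → ∃ s < P, z (u * P + s) ≠ z (u' * P + s)

lemma seq : ∃ z : ℕ → ℕ, (∀ n, 2 ≤ z n ∧ z n ≤ 32768) ∧ Dec z ∧ Hier z := by
  obtain ⟨N, m, σ, a, H⟩ := code
  have z0 : ∀ i, zz a (3 * i) = 32768 ∧ tt i ∨ zz a (3 * i) = 16384 ∧ ¬ tt i := fun i => by
    by_cases h : tt i <;> simp [zz, h]
  have z1 : ∀ i i', a i ≠ a i' → zz a (3 * i + if a i then 1 else 2) = 8192 ∧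
      zz a (3 * i' + if a i then 1 else 2) = 2 := fun i i' h => by
    have e1 : ∀ i, (3 * i + 1) / 3 = i := fun i => by omega
    have e2 : ∀ i, (3 * i + 2) / 3 = i := fun i => by omega
    cases h1 : a i <;> cases h2 : a i' <;> simp_all [zz]
  have z2 : ∀ n, n % 3 ≠ 0 → zz a n ≤ 8192 := fun n h => by
    rw [zz, if_neg h]; split_ifs <;> norm_num
  have same : ∀ k u u', σ k u = σ k u' → ∀ s, s + 3 < 3 * N k →
      zz a (u * (3 * N k) + s) = zz a (u' * (3 * N k) + s) := by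
    intro k u u' h s hs
    obtain ⟨⟨n, hn⟩, -, -, -, -, h1, -⟩ := H k
    have e1 : ∀ u, (u * (3 * N k) + s) % 3 = s % 3 := fun u => by
      rw [mul_left_comm, Nat.mul_add_mod]
    have e2 : ∀ u, (u * (3 * N k) + s) / 3 = u * N k + s / 3 := fun u => by
      rw [mul_left_comm, Nat.mul_add_div (by norm_num)]
    have e3 : tt (u * N k + s / 3) ↔ tt (u' * N k + s / 3) := tt_congr (n := n)
      ⟨u' - u, by rw [hn]; push_cast; ring⟩ fun hh => by
        have b1 : N k ∣ u * N k + (s / 3 + 1) := by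
          rw [hn] at hh ⊢; exact_mod_cast hh
        have := Nat.le_of_dvd (by omega) ((Nat.dvd_add_right (Dvd.intro_left _ rfl)).mp b1)
        omega
    rw [zz, zz, e1, e1, e2, e2, propext e3, h1 u u' h (s / 3) (by omega)]
  refine ⟨zz a, fun n => by unfold zz; split_ifs <;> norm_num, fun η hη l => ?_, fun k => ?_⟩
  · obtain ⟨k0, hk0⟩ := exists_pow_lt_of_lt_one (half_pos hη) (show (1 / 2 : ℝ) < 1 by norm_num)
    obtain ⟨k1, hk1⟩ := exists_nat_ge ((l + 3) / η)
    obtain ⟨⟨n, hn⟩, h1, -, -, -, -, P, p1, p2, p3⟩ := H (k0 + k1)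
    have same' := same (k0 + k1)
    generalize N (k0 + k1) = L at *
    generalize σ (k0 + k1) = τ at *
    have hL : (0 : ℝ) < (2 * L : ℕ) := by exact_mod_cast (by omega)
    obtain ⟨R, hR⟩ := exists_pow_lt_of_lt_one (show 0 < η / 2 / (2 * L : ℕ) by positivity)
      (show (1 / 2 : ℝ) < 1 by norm_num)
    refine ⟨3 * L, 3 * L + 3 * L + 3 * (2 * L * (R + 1)) + l, by omega, ?_, fun j hj => ?_⟩
    · rw [div_le_iff₀' hη] at hk1
      exact hk1.trans (mul_le_mul_of_nonneg_left (by exact_mod_cast (by omega)) hη.le)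
    obtain ⟨u, o, ho, hu⟩ : ∃ u o, o + j % (3 * L) = 3 * L ∧ j + o = 3 * (u * L) :=
      ⟨j / (3 * L) + 1, 3 * L - j % (3 * L), by omega, by
        have := Nat.div_add_mod j (3 * L)
        rw [show 3 * ((j / (3 * L) + 1) * L) = 3 * L * (j / (3 * L)) + 3 * L by ring]; omega⟩
    have m1 : ∀ s < 2 * L, ∀ y ≤ R, s + 2 * L * y < 2 * L * (R + 1) := fun s hs y hy => by
      have := Nat.mul_le_mul_left (2 * L) hy
      rw [mul_add]; omega
    refine ⟨(range (2 * L)).image (fun s => (range (R + 1)).image fun y => o + 3 * (s + 2 * L * y)) ∪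
      P.image fun S => S.image fun s => o + (3 * s + if a (u * L + s) then 1 else 2),
      fun s => if (j + s) % 3 = 0 then zz a (j + s) / 2 else 2, ?_, ?_, ?_⟩
    · intro S hS s hs
      rcases mem_union.mp hS with h | h
      · obtain ⟨s0, b1, rfl⟩ := mem_image.mp h
        obtain ⟨y, b2, rfl⟩ := mem_image.mp hs
        have := m1 s0 (mem_range.mp b1) y (Nat.le_of_lt_succ (mem_range.mp b2))
        omega
      · obtain ⟨S', b1, rfl⟩ := mem_image.mp h
        obtain ⟨s', b2, rfl⟩ := mem_image.mp hs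
        have := p1 S' b1 s' b2
        split_ifs <;> omega
    · refine (le_add_of_nonneg_left (by positivity)).trans ((add_comm _ _).le.trans
        (sum_union_inter.le.trans ((add_le_add ?_ ?_).trans (add_halves η).le)))
      · refine (sum_image_le_of_nonneg fun _ _ => by positivity).trans
          ((sum_le_card_nsmul _ _ ((1 / 2) ^ (R + 1)) fun s _ => le_of_eq ?_).trans ?_)
        · rw [prod_image fun y _ y' _ h => Nat.eq_of_mul_eq_mul_left (show 0 < 2 * L by omega) (by omega),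
            prod_congr rfl (g := fun _ => 1 / 2) fun y _ => ?_, prod_const, card_range]
          beta_reduce
          rw [← add_assoc, hu, ← mul_add, if_pos (by simp)]
          rcases z0 (u * L + (s + 2 * L * y)) with h | h <;> rw [h.1] <;> norm_num
        · rw [card_range, nsmul_eq_mul, ← le_div_iff₀' hL]
          exact (pow_le_pow_of_le_one (by norm_num) (by norm_num) (by omega)).trans hR.le
      · refine (sum_image_le_of_nonneg fun _ _ => by positivity).trans (le_trans (le_of_eq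
          (sum_congr rfl fun S _ => ?_)) (p2.trans ((pow_le_pow_of_le_one (by norm_num) (by norm_num)
            (by omega)).trans hk0.le)))
        rw [prod_image fun y _ y' _ h => by split_ifs at h <;> omega,
          prod_congr rfl (g := fun _ => 1 / 4096) fun s _ => ?_, prod_const]
        have e1 : ∀ i, (3 * i + 1) / 3 = i := fun i => by omega
        have e2 : ∀ i, (3 * i + 2) / 3 = i := fun i => by omega
        beta_reduce
        rw [← add_assoc j, hu, ← add_assoc, ← mul_add]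
        cases h : a (u * L + s) <;> simp [zz, h, e1, e2] <;> norm_num
    · rintro j' D hD ⟨s, hs, hne⟩
      have mk : ∀ s0 < 2 * L, (∀ y ≤ R, zz a (j' + o + 3 * (s0 + 2 * L * y)) ≤
          zz a (3 * (u * L + (s0 + 2 * L * y))) / 2) → ∃ S ∈ (range (2 * L)).image
            (fun s => (range (R + 1)).image fun y => o + 3 * (s + 2 * L * y)),
            ∀ s ∈ S, D s < if (j + s) % 3 = 0 then zz a (j + s) / 2 else 2 := by
        intro s0 b0 b1
        refine ⟨_, mem_image_of_mem _ (mem_range.mpr b0), fun s hs => ?_⟩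
        obtain ⟨y, b2, rfl⟩ := mem_image.mp hs
        have b3 := Nat.le_of_lt_succ (mem_range.mp b2)
        have := m1 s0 b0 y b3
        rw [← add_assoc, hu, ← mul_add, if_pos (by simp)]
        exact (hD _ (by omega)).trans_le (by rw [← add_assoc]; exact b1 y b3)
      by_cases c1 : (j' + o) % 3 = 0
      swap
      · obtain ⟨S, b1, b2⟩ := mk 0 (by omega) fun y _ => (z2 _ (by omega)).trans (by
          rcases z0 (u * L + (0 + 2 * L * y)) with h | h <;> rw [h.1] <;> norm_num)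
        exact ⟨S, mem_union_left _ b1, b2⟩
      obtain ⟨i', hi'⟩ := Nat.dvd_of_mod_eq_zero c1
      by_cases c2 : (2 : ℤ) ^ n ∣ i' - (u * L : ℕ)
      swap
      · obtain ⟨s0, b0, b3⟩ := tt_sep c2
        rw [← hn] at b0 b3
        obtain ⟨S, b1, b2⟩ := mk s0 b0 fun y _ => by
          rw [hi', ← mul_add, ((z0 _).resolve_left fun h => (b3 y).2 h.2).1,
            ((z0 _).resolve_right fun h => h.2 (b3 y).1).1]
        exact ⟨S, mem_union_left _ b1, b2⟩
      obtain ⟨u', rfl⟩ : ∃ u', i' = u' * L := by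
        have b1 : (L : ℤ) ∣ i' := by
          have := dvd_add c2 (show (2 : ℤ) ^ n ∣ (u * L : ℕ) from ⟨u, by rw [hn]; push_cast; ring⟩)
          rw [sub_add_cancel] at this
          rw [hn]; exact_mod_cast this
        exact exists_eq_mul_left_of_dvd (Int.natCast_dvd_natCast.mp b1)
      obtain ⟨S, b1, b2⟩ := p3 u u' fun h => hne (by
        have := same' u u' h (j % (3 * L) + s) (by omega)
        rwa [mul_left_comm, mul_left_comm u', ← hu, ← hi', show j + o + (j % (3 * L) + s) = j + 3 * L + s by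
          omega, show j' + o + (j % (3 * L) + s) = j' + 3 * L + s by omega] at this)
      refine ⟨_, mem_union_right _ (mem_image_of_mem _ b1), fun s hs => ?_⟩
      obtain ⟨s', b3, rfl⟩ := mem_image.mp hs
      have := p1 S b1 s' b3
      have b4 := (z1 _ _ (b2 s' b3)).2
      have b5 : (if a (u * L + s') then 1 else 2) = 1 ∨ (if a (u * L + s') then 1 else 2) = 2 := by
        split_ifs <;> simp
      generalize (if a (u * L + s') then 1 else 2) = w at b4 b5
      beta_reduce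
      rw [if_neg (by omega)]
      refine (hD _ (by omega)).trans_le ?_
      rw [← add_assoc, hi', ← add_assoc, ← mul_add, b4]
  · obtain ⟨-, h1, -, h2, h3, -, P, p1, p2, p3⟩ := H k
    refine ⟨3 * N k, m k, σ k, by omega, ?_, h3, same k, fun u u' h => ?_⟩
    · rw [mul_comm, pow_mul, show 12 = 4 * 3 by norm_num, pow_mul]; exact Nat.pow_le_pow_left h2 3
    · obtain ⟨S, b1, b2⟩ := p3 u u' h
      obtain ⟨s, hs⟩ : S.Nonempty := nonempty_iff_ne_empty.mpr fun h0 => by
        have := (single_le_sum (f := fun S : Finset ℕ => (1 / 4096 : ℝ) ^ S.card)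
          (fun _ _ => by positivity) b1).trans p2
        rw [h0, card_empty, pow_zero] at this
        exact absurd this (not_le.mpr (pow_lt_one₀ (by norm_num) (by norm_num) (by omega)))
      have := p1 S b1 s hs
      refine ⟨3 * s + if a (u * N k + s) then 1 else 2, by split_ifs <;> omega, ?_⟩
      rw [mul_left_comm, mul_left_comm u', ← add_assoc, ← add_assoc, ← mul_add, ← mul_add,
        (z1 _ _ (b2 s hs)).1, (z1 _ _ (b2 s hs)).2]
      norm_num

end Pool.Agent.H2a07
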