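import Mathlib
import Pool.Agent.H.MP_2a076f_an.B

set_option autoImplicit false

namespace Pool.Agent.H2a07

open Finset Filter Topology

/-- Cesàro null sequences -/
def Null (a : ℕ → ℝ) : Prop := Tendsto (fun n : ℕ => (∑ j ∈ range n, a j) / n) atTop (𝓝 0)

lemma Null.add {a b : ℕ → ℝ} (ha : Null a) (hb : Null b) : Null fun j => a j + b j := by
  simpa only [Null, sum_add_distrib, add_div, add_zero] using Tendsto.add ha hb

lemma Null.mul {a : ℕ → ℝ} (ha : Null a) (c : ℝ) : Null fun j => c * a j := by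
  simpa only [Null, ← mul_sum, mul_div_assoc, mul_zero] using ha.const_mul c

lemma Null.of_eq {a b : ℕ → ℝ} (ha : Null a) (h : ∀ j, a j = b j) : Null b := funext h ▸ ha

lemma null_sum {ι : Type*} (s : Finset ι) (a : ι → ℕ → ℝ) (h : ∀ i ∈ s, Null (a i)) :
    Null fun j => ∑ i ∈ s, a i j := by
  have := tendsto_finsetSum s h
  simp only [sum_const_zero, ← sum_div] at this
  simpa only [Null, sum_comm (s := s)] using this

lemma null_sq {a : ℕ → ℝ} (h : ∀ η > 0, ∃ (b b' : ℕ → ℝ) (C : ℝ), Null b ∧ Null b' ∧ ∀ n : ℕ,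
    ∑ j ∈ range n, b' j - η * n - C ≤ ∑ j ∈ range n, a j ∧
      ∑ j ∈ range n, a j ≤ ∑ j ∈ range n, b j + η * n + C) : Null a := by
  refine Metric.tendsto_nhds.mpr fun ε hε => ?_
  obtain ⟨b, b', C, h1, h2, h3⟩ := h (ε / 3) (by positivity)
  have h0 : (0 : ℝ) < ε / 3 := by positivity
  filter_upwards [h1.eventually_lt_const h0, h2.eventually_const_lt (neg_lt_zero.mpr h0),
    (tendsto_const_div_atTop_nhds_zero_nat C).eventually_lt_const h0, eventually_gt_atTop 0]
    with n a1 a2 a3 a4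
  have hn : (0 : ℝ) < n := by exact_mod_cast a4
  rw [div_lt_iff₀ hn] at a1 a3
  rw [lt_div_iff₀ hn] at a2
  rw [Real.dist_eq, sub_zero, abs_lt, div_lt_iff₀ hn, lt_div_iff₀ hn]
  constructor <;> linarith [(h3 n).1, (h3 n).2]

lemma null_bdd {a : ℕ → ℝ} (C : ℝ) (h : ∀ n, |∑ j ∈ range n, a j| ≤ C) : Null a :=
  null_sq fun η hη => ⟨0, 0, C, by simp [Null], by simp [Null], fun n => by
    have := abs_le.mp (h n)
    have : 0 ≤ η * n := by positivity
    simp only [Pi.zero_apply, sum_const_zero]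
    constructor <;> linarith⟩

lemma null_shift {a : ℕ → ℝ} {C : ℝ} (h : ∀ j, |a j| ≤ C) (o : ℕ) : Null fun j => a (j + o) - a j := by
  refine null_bdd (o * C + o * C) fun n => ?_
  have h1 := sum_range_add a n o
  rw [add_comm n, sum_range_add] at h1
  have h2 : ∀ f : ℕ → ℕ, |∑ j ∈ range o, a (f j)| ≤ o * C := fun f =>
    (abs_sum_le_sum_abs _ _).trans ((sum_le_card_nsmul _ _ C fun _ _ => h _).trans (by simp))
  have h3 := abs_le.mp (h2 id)
  have h4 := abs_le.mp (h2 (n + ·))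
  simp only [sum_sub_distrib, add_comm _ o, id] at h3 ⊢
  rw [abs_le]
  constructor <;> linarith

lemma Null.unshift {a : ℕ → ℝ} {C : ℝ} {o : ℕ} (ha : Null fun j => a (j + o)) (h : ∀ j, |a j| ≤ C) :
    Null a := (ha.add ((null_shift h o).mul (-1))).of_eq fun j => by ring

lemma Null.shift {a : ℕ → ℝ} {C : ℝ} (ha : Null a) (h : ∀ j, |a j| ≤ C) (o : ℕ) :
    Null fun j => a (j + o) := (ha.add (null_shift h o)).of_eq fun j => by ring

/-- expectation over independent uniform digits -/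
noncomputable def Ex : ℕ → (ℕ → ℕ) → ((ℕ → ℕ) → ℝ) → ℝ
  | 0, _, F => F 0
  | W + 1, q, F => (∑ d ∈ range (q 0), Ex W (fun s => q (s + 1)) fun D => F (Stream'.cons d D)) / q 0

/-- dependence on the first `l` coordinates only -/
def Dep (l : ℕ) (F : (ℕ → ℕ) → ℝ) : Prop := ∀ D D', (∀ s < l, D s = D' s) → F D = F D'

lemma Ex_mono (W : ℕ) : ∀ (q : ℕ → ℕ) (F G : (ℕ → ℕ) → ℝ),
    (∀ D, (∀ s < W, D s < q s) → F D ≤ G D) → Ex W q F ≤ Ex W q G := by
  induction W with
  | zero => exact fun q F G h => h _ (by simp)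
  | succ W ih =>
    refine fun q F G h => div_le_div_of_nonneg_right (sum_le_sum fun d hd => ih _ _ _ fun D hD =>
      h _ ?_) (by positivity)
    rintro (_ | s) hs
    · exact mem_range.mp hd
    · exact hD s (by omega)

lemma Ex_lin {ι : Type*} (s : Finset ι) (c : ι → ℝ) (W : ℕ) : ∀ (q : ℕ → ℕ) (F : ι → (ℕ → ℕ) → ℝ),
    Ex W q (fun D => ∑ i ∈ s, c i * F i D) = ∑ i ∈ s, c i * Ex W q (F i) := by
  induction W with
  | zero => exact fun q F => rfl
  | succ W ih =>
    intro q F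
    simp only [Ex, ih _ fun i D => F i (Stream'.cons _ D)]
    rw [sum_comm, sum_div]
    exact sum_congr rfl fun i _ => by rw [← mul_sum, mul_div_assoc]

lemma Ex_add (W : ℕ) (q : ℕ → ℕ) (F G : (ℕ → ℕ) → ℝ) (c : ℝ) :
    Ex W q (fun D => F D + c * G D) = Ex W q F + c * Ex W q G := by
  simpa using Ex_lin univ ![1, c] W q ![F, G]

lemma Ex_prod (W : ℕ) : ∀ (q : ℕ → ℕ) (g : ℕ → ℕ → ℝ),
    Ex W q (fun D => ∏ s ∈ range W, g s (D s)) = ∏ s ∈ range W, (∑ d ∈ range (q s), g s d) / q s := by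
  induction W with
  | zero => simp [Ex]
  | succ W ih =>
    intro q g
    have h : ∀ d, Ex W (fun s => q (s + 1)) (fun D => ∏ s ∈ range (W + 1), g s (Stream'.cons d D s)) =
        g 0 d * ∏ s ∈ range W, (∑ d ∈ range (q (s + 1)), g (s + 1) d) / q (s + 1) := fun d => by
      rw [← ih _ fun s => g (s + 1)]
      simpa [prod_range_succ', mul_comm, Stream'.cons] using
        Ex_lin {0} (fun _ => g 0 d) W _ fun _ D => ∏ s ∈ range W, g (s + 1) (D s)
    rw [Ex, prod_range_succ']
    simp only [h, ← sum_mul]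
    ring

lemma Ex_const (W : ℕ) (q : ℕ → ℕ) (hq : ∀ s, 0 < q s) (c : ℝ) : Ex W q (fun _ => c) = c := by
  induction W generalizing q with
  | zero => rfl
  | succ W ih =>
    have : (q 0 : ℝ) ≠ 0 := by exact_mod_cast (hq 0).ne'
    simp [Ex, ih _ fun s => hq (s + 1), this]

lemma Ex_left (W P : ℕ) : ∀ (q : ℕ → ℕ), (∀ s, 0 < q s) → ∀ G : (ℕ → ℕ) → ℝ,
    Ex (W + P) q (fun D => G fun s => D (s + P)) = Ex W (fun s => q (s + P)) G := by
  induction P with
  | zero => exact fun _ _ _ => rfl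
  | succ P ih =>
    intro q hq G
    have : (q 0 : ℝ) ≠ 0 := by exact_mod_cast (hq 0).ne'
    refine (congrArg (· / (q 0 : ℝ)) (sum_congr rfl fun d _ =>
      ih (fun s => q (s + 1)) (fun s => hq _) G)).trans ?_
    simp [this, add_assoc]

lemma Ex_right (l r : ℕ) : ∀ (q : ℕ → ℕ), (∀ s, 0 < q s) → ∀ G, Dep l G → Ex (r + l) q G = Ex l q G := by
  induction l with
  | zero =>
    intro q hq G hG
    rw [show G = fun _ => G 0 from funext fun D => hG _ _ (by simp), Ex_const _ _ hq, Ex_const _ _ hq]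
  | succ l ih =>
    refine fun q hq G hG => congrArg (· / (q 0 : ℝ)) (sum_congr rfl fun d _ =>
      ih _ (fun s => hq _) _ fun D D' h => hG _ _ ?_)
    rintro (_ | s) hs
    · rfl
    · exact h s (by omega)

lemma Ex_abs (W : ℕ) (q : ℕ → ℕ) (hq : ∀ s, 0 < q s) (F : (ℕ → ℕ) → ℝ) (h : ∀ D, |F D| ≤ 1) :
    |Ex W q F| ≤ 1 :=
  abs_le.mpr ⟨(Ex_const W q hq _).ge.trans (Ex_mono _ _ _ _ fun D _ => (abs_le.mp (h D)).1),
    (Ex_mono _ _ _ _ fun D _ => (abs_le.mp (h D)).2).trans (Ex_const W q hq _).le⟩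

lemma Ex_ind (l : ℕ) (q : ℕ → ℕ) (D : Fin l → ℕ) :
    Ex l q (fun D' => if ∀ i : Fin l, D' i = D i then 1 else 0) =
      if ∀ i : Fin l, D i < q i then 1 / ∏ i : Fin l, (q i : ℝ) else 0 := by
  have := Ex_prod l q fun s d => if h : s < l then (if d = D ⟨s, h⟩ then 1 else 0) else 0
  simp only [← Fin.prod_univ_eq_prod_range (fun s => _) l, Fin.is_lt, dite_true, Fin.eta,
    Fintype.prod_boole, sum_ite_eq', mem_range, prod_div_distrib] at this
  rw [ite_div, zero_div] at this
  convert this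

lemma main {z d : ℕ → ℕ} (hz : ∀ n, 0 < z n) (hd : ∀ n, d n < z n) (hD : Dec z)
    (hN : ∀ W, 1 ≤ W → ∀ ψ, Dep W ψ → Null fun j => ψ (fun s => d (j + s)) - Ex W (fun s => z (j + s)) ψ)
    (l : ℕ) (Ψ : (ℕ → ℕ) → (ℕ → ℕ) → ℝ) (h1 : ∀ B D, |Ψ B D| ≤ 1) (h2 : ∀ B, Dep l (Ψ B))
    (h3 : ∀ D, Dep l fun B => Ψ B D) : Null fun j => Ψ (fun s => z (j + s)) (fun s => d (j + s)) -
      Ex l (fun s => z (j + s)) (Ψ fun s => z (j + s)) := by
  classical
  refine null_sq fun η hη => ?_
  obtain ⟨P, W, w1, w2, w3⟩ := hD (η / 8) (by positivity) l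
  have hP : 0 < P := Nat.pos_of_ne_zero fun h => by
    rw [h, Nat.cast_zero, mul_zero] at w2; linarith [Nat.cast_nonneg (α := ℝ) l]
  obtain ⟨amb, hamb⟩ : ∃ amb : (ℕ → ℕ) → ℝ, ∀ D, amb D = if ∃ j' j'', (∀ s < W, D s < z (j' + s)) ∧
    (∀ s < W, D s < z (j'' + s)) ∧ ∃ s < l, z (j' + P + s) ≠ z (j'' + P + s) then 1 else 0 :=
    ⟨_, fun _ => rfl⟩
  obtain ⟨φ, hφ⟩ : ∃ φ : (ℕ → ℕ) → ℝ, ∀ D, φ D = Ψ (fun s =>
    z (Classical.epsilon (fun j' => ∀ s < W, D s < z (j' + s)) + P + s)) fun s => D (s + P) :=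
    ⟨_, fun _ => rfl⟩
  have e0 : ∀ D D' : ℕ → ℕ, (∀ s < W, D s = D' s) → ∀ j, (∀ s < W, D s < z (j + s)) =
      ∀ s < W, D' s < z (j + s) := fun D D' h j =>
    propext (forall₂_congr fun s hs => by rw [h s hs])
  have b1 := hN W (by omega) φ fun D D' h => by
    simp only [hφ, e0 D D' h]
    exact h2 _ _ _ fun s hs => h _ (by omega)
  have b2 := hN W (by omega) amb fun D D' h => by simp only [hamb, e0 D D' h]
  have k1 : ∀ j D, (∀ s < W, D s < z (j + s)) →
      |Ψ (fun s => z (j + P + s)) (fun s => D (s + P)) - φ D| ≤ 2 * amb D := by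
    intro j D h
    rw [hamb, hφ]
    split_ifs with c
    · exact (abs_sub _ _).trans ((add_le_add (h1 _ _) (h1 _ _)).trans (by norm_num))
    · push Not at c
      have := h3 (fun s => D (s + P)) _ _
        (c j _ h (Classical.epsilon_spec (p := fun j' => ∀ s < W, D s < z (j' + s)) ⟨j, h⟩))
      simp only at this
      simp [this]
  have k2 : ∀ j, Ex W (fun s => z (j + s)) amb ≤ η / 8 + if j % P + l + 3 ≤ P then 0 else 1 := by
    intro j
    split_ifs with c
    · obtain ⟨F, low, f1, f2, f3⟩ := w3 j c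
      refine (Ex_mono _ _ _ (fun D => ∑ S ∈ F, 1 * ∏ s ∈ range W,
        if s ∈ S then (if D s < low s then 1 else 0) else 1) fun D h => ?_).trans ?_
      · rw [hamb]
        split_ifs with c'
        · obtain ⟨j', j'', c1, c2, s, c3, c4⟩ := c'
          obtain ⟨S, d1, d2⟩ : ∃ S ∈ F, ∀ s ∈ S, D s < low s := by
            by_cases c5 : z (j + P + s) = z (j' + P + s)
            · exact f3 j'' D c2 ⟨s, c3, c5 ▸ c4⟩
            · exact f3 j' D c1 ⟨s, c3, c5⟩
          refine le_trans (le_of_eq ?_) (single_le_sum (fun _ _ => by positivity) d1)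
          rw [one_mul, prod_eq_one fun s _ => by
            by_cases hs : s ∈ S
            · simp [hs, d2 s hs]
            · simp [hs]]
        · positivity
      · rw [Ex_lin, add_zero]
        refine le_trans (sum_le_sum fun S hS => ?_) f2
        rw [one_mul, Ex_prod W _ fun s d => if s ∈ S then (if d < low s then 1 else 0) else 1,
          ← prod_subset (s₁ := S) (fun s hs => mem_range.mpr (f1 S hS s hs)) fun s _ hs => by
            simp [hs, (hz _).ne']]
        refine prod_le_prod (fun _ _ => by positivity) fun s hs => div_le_div_of_nonneg_right ?_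
          (by positivity)
        simp only [hs, if_true, sum_boole, Nat.cast_le]
        exact (card_le_card fun d hd => mem_range.mpr (mem_filter.mp hd).2).trans (card_range _).le
    · refine (Ex_mono _ _ _ (fun _ => 1) fun D _ => by rw [hamb]; split_ifs <;> norm_num).trans ?_
      rw [Ex_const _ _ fun s => hz _]
      linarith
  have k3 : ∀ n : ℕ, ∑ j ∈ range n, (if j % P + l + 3 ≤ P then (0 : ℝ) else 1) ≤
      η / 8 * n + (l + 3) := by
    intro n
    have a1 : ((range n).filter fun j => ¬ j % P + l + 3 ≤ P).card ≤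
        (range (n / P + 1) ×ˢ range (l + 3)).card :=
      card_le_card_of_injOn (fun j => (j / P, P - j % P)) (fun j hj => by
        obtain ⟨c1, c2⟩ := mem_filter.mp hj
        exact mem_coe.mpr (mem_product.mpr ⟨mem_range.mpr (Nat.lt_succ_of_le
          (Nat.div_le_div_right (mem_range.mp c1).le)), mem_range.mpr (by simp only; omega)⟩))
        fun j _ j' _ h => by
          simp only [Prod.mk.injEq] at h
          have := Nat.mod_lt j hP
          have := Nat.mod_lt j' hP
          rw [← Nat.div_add_mod j P, ← Nat.div_add_mod j' P, h.1]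
          omega
    rw [card_product, card_range, card_range] at a1
    have a2 : ((n / P : ℕ) : ℝ) * P ≤ n := by exact_mod_cast Nat.div_mul_le_self n P
    have a3 := mul_le_mul_of_nonneg_left w2 (Nat.cast_nonneg (n / P))
    simp only [← ite_not (_ ≤ P), sum_boole]
    calc _ ≤ (((n / P : ℕ) : ℝ) + 1) * (l + 3) := by exact_mod_cast a1
      _ ≤ _ := by nlinarith
  set a := fun j => Ψ (fun s => z (j + s)) (fun s => d (j + s)) -
    Ex l (fun s => z (j + s)) (Ψ fun s => z (j + s)) with ha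
  have b3 := null_shift (a := a) (C := 1 + 1) (fun j => (abs_sub _ _).trans
    (add_le_add (h1 _ _) (Ex_abs _ _ (fun s => hz _) _ (h1 _)))) P
  have k4 : ∀ j, |a (j + P) - (φ (fun s => d (j + s)) - Ex W (fun s => z (j + s)) φ)| ≤
      2 * (amb (fun s => d (j + s)) - Ex W (fun s => z (j + s)) amb) +
        4 * (η / 8 + if j % P + l + 3 ≤ P then 0 else 1) := by
    intro j
    obtain ⟨r, rfl⟩ : ∃ r, W = r + l + P := ⟨W - (P + l), by omega⟩
    have c1 := abs_le.mp (k1 j _ fun s _ => hd (j + s))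
    have c2 := Ex_left (r + l) P (fun s => z (j + s)) (fun s => hz _) (Ψ fun s => z (j + P + s))
    rw [Ex_right l r _ (fun s => hz _) _ (h2 _)] at c2
    have c3 := (Ex_mono _ _ (fun D => Ψ (fun s => z (j + P + s)) fun s => D (s + P))
      (fun D => φ D + 2 * amb D) fun D h => by
        linarith [(abs_le.mp (k1 j D h)).2]).trans (Ex_add _ _ _ _ _).le
    have c4 := (Ex_add _ _ _ _ _).ge.trans (Ex_mono _ _ (fun D => φ D + -2 * amb D)
      (fun D => Ψ (fun s => z (j + P + s)) fun s => D (s + P)) fun D h => by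
        linarith [(abs_le.mp (k1 j D h)).1])
    rw [c2] at c3 c4
    simp only [ha, add_assoc j, add_comm P] at c1 c3 c4 ⊢
    rw [abs_le]
    constructor <;> linarith [k2 j]
  refine ⟨_, _, 4 * (l + 3), (b1.add (b2.mul 2)).add (b3.mul (-1)),
    (b1.add (b2.mul (-2))).add (b3.mul (-1)), fun n => ?_⟩
  have k5 := sum_le_sum fun j (_ : j ∈ range n) => (abs_le.mp (k4 j)).1
  have k6 := sum_le_sum fun j (_ : j ∈ range n) => (abs_le.mp (k4 j)).2
  simp only [sum_add_distrib, sum_sub_distrib, sum_neg_distrib, ← mul_sum, sum_const, card_range,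
    nsmul_eq_mul] at k5 k6 ⊢
  constructor <;> linarith [k3 n]

end Pool.Agent.H2a07
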