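import Mathlib

set_option autoImplicit false

namespace Pool.Agent.H2a07

open Finset Filter Topology MeasureTheory

/-- `q_1 ⋯ q_{n-1} x` modulo one -/
noncomputable def orb (Q : ℕ → ℕ) (x : ℝ) (n : ℕ) : ℝ := Int.fract ((∏ i ∈ Ico 1 n, (Q i : ℝ)) * x)

/-- the digit `x_n` of the Cantor series expansion -/
noncomputable def dig (Q : ℕ → ℕ) (x : ℝ) (n : ℕ) : ℕ := ⌊(Q n : ℝ) * orb Q x n⌋₊

/-- `Q_n(D)` -/
noncomputable def QQ (Q : ℕ → ℕ) {l : ℕ} (D : Fin l → ℕ) (n : ℕ) : ℝ :=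
  ∑ j ∈ Icc 1 n, if ∀ i : Fin l, D i < Q (j + i) then 1 / ∏ i : Fin l, (Q (j + i) : ℝ) else 0

/-- `N_n(D, x)`, the block being read from position `j + o` -/
noncomputable def NN (o : ℕ) (Q : ℕ → ℕ) (x : ℝ) {l : ℕ} (D : Fin l → ℕ) (n : ℕ) : ℝ :=
  ((Icc 1 n).filter fun j => ∀ i : Fin l, dig Q x (j + o + i) = D i).card

/-- `Q`-normality -/
def Normal (o : ℕ) (Q : ℕ → ℕ) (x : ℝ) : Prop := ∀ l, 1 ≤ l → ∀ D : Fin l → ℕ,
  Tendsto (QQ Q D) atTop atTop → Tendsto (fun n => NN o Q x D n / QQ Q D n) atTop (𝓝 1)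

/-- `Q`-distribution normality -/
def DistNormal (Q : ℕ → ℕ) (x : ℝ) : Prop := ∀ a b : ℝ, 0 ≤ a → a ≤ b → b ≤ 1 →
  Tendsto (fun N : ℕ => (((Icc 1 N).filter fun n => a ≤ orb Q x (n + 1) ∧ orb Q x (n + 1) < b).card : ℝ)
    / N) atTop (𝓝 (b - a))

/-- `Q_n(D, B)` -/
noncomputable def QB (Q : ℕ → ℕ) {l : ℕ} (D B : Fin l → ℕ) (n : ℕ) : ℝ :=
  ∑ j ∈ (Icc 1 n).filter fun j => ∀ i : Fin l, Q (j + i) = B i,
    if ∀ i : Fin l, D i < Q (j + i) then 1 / ∏ i : Fin l, (B i : ℝ) else 0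

/-- `N_n(D, B, x)` -/
noncomputable def NB (Q : ℕ → ℕ) (x : ℝ) {l : ℕ} (D B : Fin l → ℕ) (n : ℕ) : ℝ :=
  ((Icc 1 n).filter fun j => (∀ i : Fin l, Q (j + i) = B i) ∧ ∀ i : Fin l, dig Q x (j + i) = D i).card

/-- uniform `Q`-normality -/
def UNormal (Q : ℕ → ℕ) (x : ℝ) : Prop := ∀ l, 1 ≤ l → ∀ D B : Fin l → ℕ,
  Tendsto (QB Q D B) atTop atTop → Tendsto (fun n => NB Q x D B n / QB Q D B n) atTop (𝓝 1)

/-- Kolmogorov–Sinai entropy -/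
noncomputable def ksEnt {X : Type} [MeasurableSpace X] (μ : Measure X) (T : X → X) : ENNReal :=
  ⨆ (r : ℕ) (g : X → Fin r) (_ : Measurable g), limsup (fun n : ℕ => ENNReal.ofReal
    ((∑ w : Fin n → Fin r, Real.negMulLog (μ.real {y | ∀ i : Fin n, g (T^[i] y) = w i})) / n)) atTop

/-- non-deterministic dynamically generated sequences -/
def NonDet (Q : ℕ → ℕ) : Prop :=
  ∃ (X : Type) (_ : MetricSpace X) (_ : CompleteSpace X) (_ : TopologicalSpace.SeparableSpace X)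
    (_ : MeasurableSpace X) (_ : BorelSpace X) (μ : Measure X) (T : X → X) (f : X → ℕ) (x : X),
    IsProbabilityMeasure μ ∧ μ.IsOpenPosMeasure ∧ Continuous T ∧ MeasurePreserving T μ μ ∧
    Continuous f ∧ (∀ y, 2 ≤ f y) ∧
    (inferInstance : TopologicalSpace X) = ⨅ n, TopologicalSpace.induced (fun y => f (T^[n] y)) ⊥ ∧
    (∀ F : X → ℝ, Continuous F → Integrable F μ →
      Tendsto (fun N : ℕ => (∑ n ∈ Icc 1 N, F (T^[n] x)) / N) atTop (𝓝 (∫ y, F y ∂μ))) ∧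
    (∀ n, 1 ≤ n → Q n = f (T^[n] x)) ∧ 0 < ksEnt μ T

end Pool.Agent.H2a07
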