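import Mathlib
import Pool.Agent.H.MP_2a076f_an.C
import Pool.Agent.H.MP_2a076f_an.Defs

set_option autoImplicit false

namespace Pool.Agent.H2a07

open Finset Filter Topology

lemma sum_Icc1 (a : ℕ → ℝ) (n : ℕ) : ∑ j ∈ Icc 1 n, a j = ∑ j ∈ range n, a (j + 1) := by
  rw [← Ico_add_one_right_eq_Icc, sum_Ico_eq_sum_range]
  simp only [add_comm 1, Nat.add_sub_cancel]

lemma sum_range_mul (U y : ℕ) (F : ℕ → ℝ) :
    ∑ n ∈ range (y * U), F n = ∑ j ∈ range y, ∑ lo ∈ range U, F (j * U + lo) := by
  induction y with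
  | zero => simp
  | succ y ih => rw [Nat.succ_mul, sum_range_add, ih, sum_range_succ]

lemma blk_le {a : ℕ → ℝ} {K : ℕ} {M h : ℝ} (hK : 0 < K) (hM : ∀ j, |a j| ≤ M)
    (H : ∀ U, ∑ s ∈ range K, a (U * K + s) ≤ h * K) :
    ∃ C, ∀ n : ℕ, ∑ j ∈ range n, a j ≤ h * n + C := by
  refine ⟨K * (M + |h|), fun n => ?_⟩
  have h1 := Nat.div_add_mod' n K
  have h2 : ((n % K : ℕ) : ℝ) ≤ K := by exact_mod_cast (Nat.mod_lt n hK).le
  generalize n / K = y at h1
  generalize n % K = r at h1 h2
  subst h1
  have h3 := sum_le_card_nsmul (range y) _ _ fun U _ => H U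
  have h4 := sum_le_card_nsmul (range r) (fun s => a (y * K + s)) M fun s _ => (le_abs_self _).trans (hM _)
  rw [card_range, nsmul_eq_mul] at h3 h4
  rw [sum_range_add, sum_range_mul]
  have h5 := mul_le_mul_of_nonneg_right h2 (add_nonneg ((abs_nonneg _).trans (hM 0)) (abs_nonneg h))
  have h6 := mul_le_mul_of_nonneg_left (neg_abs_le h) (Nat.cast_nonneg (α := ℝ) r)
  push_cast
  linarith

lemma recur {z : ℕ → ℕ} (hH : Hier z) (j0 l : ℕ) {a : ℕ → ℝ} {c M : ℝ} (hc : 0 < c) (h0 : ∀ j, 0 ≤ a j)
    (hM : ∀ j, a j ≤ M) (h1 : ∀ j, (∀ s < l, z (j + s) = z (j0 + s)) → c ≤ a j) :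
    ∃ h C, 0 < h ∧ ∀ n : ℕ, h * n - C ≤ ∑ j ∈ range n, a j := by
  obtain ⟨P, m, σ, p1, p2, p3, p4, -⟩ := hH (j0 + l + 3)
  have hm : 0 < m := Nat.pos_of_ne_zero fun h => by simp [h] at p2
  have hK : 0 < m * P := Nat.mul_pos hm (by omega)
  have hK' : (0 : ℝ) < (m * P : ℕ) := by exact_mod_cast hK
  obtain ⟨C, hC⟩ := blk_le (a := fun j => -a j) (M := M) (h := -(c / (m * P : ℕ))) hK
    (fun j => by rw [abs_neg, abs_of_nonneg (h0 j)]; exact hM j) fun U => by
      obtain ⟨t, t1, t2⟩ := (p3 U).surjOn ((p3 0).mapsTo (mem_coe.mpr (mem_range.mpr hm)))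
      have t3 := Nat.mul_le_mul_right P (Nat.succ_le_of_lt (mem_range.mp t1))
      rw [sum_neg_distrib, neg_mul, div_mul_cancel₀ _ hK'.ne', neg_le_neg_iff]
      refine (h1 _ fun s hs => ?_).trans (single_le_sum (f := fun s => a (U * (m * P) + s))
        (fun _ _ => h0 _) (a := t * P + j0) (mem_range.mpr (by rw [Nat.succ_mul] at t3; omega)))
      have := p4 _ _ t2 (j0 + s) (by omega)
      simp only [zero_mul, zero_add] at this
      rw [← this]; congr 1; ring
  exact ⟨c / (m * P : ℕ), C, by positivity, fun n => by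
    have := hC n
    rw [sum_neg_distrib] at this
    linarith⟩

lemma dig_lt {z : ℕ → ℕ} (hz : ∀ n, 0 < z n) (x : ℝ) (n : ℕ) : dig z x n < z n :=
  (Nat.floor_lt' (hz n).ne').mpr (mul_lt_of_lt_one_right (by exact_mod_cast hz n) (Int.fract_lt_one _))

section
variable {z : ℕ → ℕ} (hz : ∀ n, 2 ≤ z n ∧ z n ≤ 32768)
include hz

lemma prod_bd {l : ℕ} (j : ℕ) : 1 ≤ ∏ i : Fin l, (z (j + i) : ℝ) ∧ ∏ i : Fin l, (z (j + i) : ℝ) ≤ 32768 ^ l :=
  ⟨by exact_mod_cast Nat.succ_le_of_lt (prod_pos fun _ _ => lt_of_lt_of_le two_pos (hz _).1), by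
    have := prod_le_pow_card univ (fun i : Fin l => z (j + i)) 32768 fun _ _ => (hz _).2
    rw [card_univ, Fintype.card_fin] at this
    exact_mod_cast this⟩

lemma null_normal {o : ℕ} {x : ℝ} (hx : Normal o z x) (W : ℕ) (hW : 1 ≤ W) (ψ : (ℕ → ℕ) → ℝ)
    (hψ : Dep W ψ) : Null fun j => ψ (fun s => dig z x (j + s)) - Ex W (fun s => z (j + s)) ψ := by
  have hz0 : ∀ n, 0 < z n := fun n => lt_of_lt_of_le two_pos (hz n).1
  have key : ∀ D : Fin W → ℕ, Null fun j => (if ∀ i : Fin W, dig z x (j + i) = D i then (1 : ℝ) else 0) -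
      if ∀ i : Fin W, D i < z (j + i) then 1 / ∏ i : Fin W, (z (j + i) : ℝ) else 0 := by
    intro D
    set a := fun j => if ∀ i : Fin W, dig z x (j + i) = D i then (1 : ℝ) else 0 with ha
    set e := fun j => if ∀ i : Fin W, D i < z (j + i) then 1 / ∏ i : Fin W, (z (j + i) : ℝ) else 0 with he
    have a1 : ∀ j, |a j| ≤ 1 := fun j => by simp only [ha]; split_ifs <;> simp
    have e0 : ∀ j, 0 ≤ e j := fun j => by simp only [he]; positivity
    have e1 : ∀ j, |e j| ≤ 1 := fun j => by
      rw [abs_of_nonneg (e0 j)]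
      simp only [he]
      split_ifs
      · exact div_le_one_of_le₀ (prod_bd hz j).1 (by positivity)
      · norm_num
    have q1 : ∀ n, QQ z D n = ∑ j ∈ range n, e (j + 1) := fun n => sum_Icc1 e n
    by_cases c : Tendsto (QQ z D) atTop atTop
    · have b1 : Null fun j => a (j + (1 + o)) - e (j + 1) := by
        have b2 := (hx W hW D c).sub_const 1
        rw [sub_self] at b2
        refine squeeze_zero_norm' ?_ (by simpa using b2.norm)
        filter_upwards [c.eventually_gt_atTop 0] with n hn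
        have b3 : NN o z x D n = ∑ j ∈ range n, a (j + (1 + o)) := by
          rw [NN, ← sum_boole, sum_Icc1]; simp only [ha, add_assoc]
        have b4 : QQ z D n ≤ n := (q1 n).le.trans ((sum_le_card_nsmul _ _ 1 fun j _ =>
          (le_abs_self _).trans (e1 _)).trans (by simp))
        rw [sum_sub_distrib, ← b3, ← q1, div_sub_one hn.ne', Real.norm_eq_abs, abs_div, abs_div,
          abs_of_pos hn, Nat.abs_cast]
        exact div_le_div_of_nonneg_left (abs_nonneg _) hn b4
      exact ((b1.add ((null_shift a1 (1 + o)).mul (-1))).add (null_shift e1 1)).of_eq fun j => by ring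
    · obtain ⟨C, hC⟩ : ∃ C, ∀ n, QQ z D n ≤ C := by
        by_contra h
        push Not at h
        exact c (Monotone.tendsto_atTop_atTop (fun n n' hn => (q1 n).le.trans
          ((sum_le_sum_of_subset_of_nonneg (range_mono hn) fun _ _ _ => e0 _).trans (q1 n').ge))
          fun b => (h b).imp fun _ => le_of_lt)
      have b1 : ∀ j, |a j - e j| ≤ (32768 ^ W + 1) * e j := fun j => by
        refine (abs_sub _ _).trans ?_
        rw [abs_of_nonneg (e0 j), add_mul, one_mul]
        refine add_le_add ?_ le_rfl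
        by_cases h : ∀ i : Fin W, dig z x (j + i) = D i
        · refine (a1 j).trans ?_
          simp only [he, if_pos fun i => h i ▸ dig_lt hz0 x (j + i)]
          rw [mul_one_div, one_le_div (lt_of_lt_of_le one_pos (prod_bd hz j).1)]
          exact (prod_bd hz j).2
        · simp only [ha, if_neg h, abs_zero]
          exact mul_nonneg (by positivity) (e0 j)
      refine Null.unshift (o := 1) (C := 1 + 1) (null_bdd ((32768 ^ W + 1) * C) fun n => ?_)
        fun j => (abs_sub _ _).trans (add_le_add (a1 j) (e1 j))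
      refine (abs_sum_le_sum_abs _ _).trans ((sum_le_sum fun j _ => b1 _).trans ?_)
      rw [← mul_sum, ← q1]
      exact mul_le_mul_of_nonneg_left (hC n) (by positivity)
  have dec : ∀ (j : ℕ) (D' : ℕ → ℕ), (∀ s < W, D' s < z (j + s)) →
      ψ D' = ∑ D ∈ Fintype.piFinset fun _ : Fin W => range 32768,
        ψ (fun s => if h : s < W then D ⟨s, h⟩ else 0) * if ∀ i : Fin W, D' i = D i then 1 else 0 := by
    intro j D' h
    rw [sum_eq_single_of_mem (fun i : Fin W => D' i) (Fintype.mem_piFinset.mpr fun i =>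
      mem_range.mpr ((h i i.2).trans_le (hz _).2)) fun D _ hne => by
        rw [if_neg fun hh => hne (funext hh).symm, mul_zero]]
    rw [if_pos fun _ => rfl, mul_one]
    exact hψ _ _ fun s hs => by simp [hs]
  refine (null_sum (Fintype.piFinset fun _ : Fin W => range 32768) _ fun D _ =>
    (key D).mul (ψ fun s => if h : s < W then D ⟨s, h⟩ else 0)).of_eq fun j => ?_
  rw [dec j _ fun s _ => dig_lt hz0 x _, le_antisymm (Ex_mono W _ ψ _ fun D h => (dec j D h).le)
    (Ex_mono W _ _ ψ fun D h => (dec j D h).ge), Ex_lin]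
  simp only [Ex_ind, mul_sub, sum_sub_distrib]

lemma unormal {o : ℕ} {x : ℝ} (hD : Dec z) (hH : Hier z) (hx : Normal o z x) : UNormal z x := by
  intro l _ D B hQ
  have hz0 : ∀ n, 0 < z n := fun n => lt_of_lt_of_le two_pos (hz n).1
  have h1 := (main hz0 (dig_lt hz0 x) hD (null_normal hz hx) l
    (fun B' D' => (if ∀ i : Fin l, B' i = B i then 1 else 0) * if ∀ i : Fin l, D' i = D i then 1 else 0)
    (fun _ _ => by split_ifs <;> simp)
    (fun _ D1 D2 h => by simp only [fun i : Fin l => h i i.2])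
    (fun _ D1 D2 h => by simp only [fun i : Fin l => h i i.2])).shift (C := 1 + 1) (fun j =>
      (abs_sub _ _).trans (add_le_add (by split_ifs <;> simp) (Ex_abs _ _ (fun s => hz0 _) _
        fun _ => by split_ifs <;> simp))) 1
  set e := fun j => (if ∀ i : Fin l, z (j + i) = B i then (1 : ℝ) else 0) *
    if ∀ i : Fin l, D i < z (j + i) then 1 / ∏ i : Fin l, (z (j + i) : ℝ) else 0 with he
  have q1 : ∀ n, QB z D B n = ∑ j ∈ range n, e (j + 1) := fun n => by
    rw [QB, sum_filter, ← sum_Icc1]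
    refine sum_congr rfl fun j _ => ?_
    by_cases h : ∀ i : Fin l, z (j + i) = B i
    · simp only [he, h, implies_true, if_true, one_mul]
    · simp only [he, h, if_false, zero_mul]
  have h2 : Tendsto (fun n : ℕ => (NB z x D B n - QB z D B n) / n) atTop (𝓝 0) := by
    refine Tendsto.congr (fun n => ?_) h1
    rw [q1, NB, ← sum_boole, sum_Icc1, ← sum_sub_distrib]
    congr 1
    refine sum_congr rfl fun j _ => ?_
    have := Ex_lin {0} (fun _ => if ∀ i : Fin l, z (j + 1 + i) = B i then (1 : ℝ) else 0) l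
      (fun s => z (j + 1 + s)) fun _ D' => if ∀ i : Fin l, D' i = D i then 1 else 0
    simp only [sum_singleton, Ex_ind] at this
    beta_reduce
    rw [this, ite_zero_mul_ite_zero, one_mul]
  obtain ⟨n0, hn0⟩ := (hQ.eventually_gt_atTop 0).exists
  rw [q1] at hn0
  obtain ⟨j0, -, hj0⟩ := exists_ne_zero_of_sum_ne_zero hn0.ne'
  have e0 : ∀ j, 0 ≤ e j := fun j => by simp only [he]; positivity
  obtain ⟨h, C, c1, c2⟩ := recur hH j0 (l + 1) (a := fun j => e (j + 1)) (M := e (j0 + 1) + 1)
    ((e0 _).lt_of_ne' hj0) (fun j => e0 _) (fun j => le_add_of_nonneg_of_le (e0 _) (by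
      simp only [he]
      split_ifs <;> simp [inv_le_one_of_one_le₀ (prod_bd hz (l := l) _).1])) fun j hj => le_of_eq (by
      simp only [he, add_assoc, fun i : Fin l => hj (1 + i) (by omega)])
  rw [← tendsto_sub_nhds_zero_iff]
  refine squeeze_zero_norm' ?_ (by simpa using (h2.const_mul (2 / h)).norm)
  filter_upwards [hQ.eventually_gt_atTop 0, tendsto_natCast_atTop_atTop.eventually_ge_atTop (2 * C / h),
    eventually_gt_atTop 0] with n a1 a2 a3
  have a4 : (0 : ℝ) < n := by exact_mod_cast a3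
  rw [div_le_iff₀ c1] at a2
  have a5 : h / 2 * n ≤ QB z D B n := by rw [q1]; linarith [c2 n]
  rw [div_sub_one a1.ne', Real.norm_eq_abs, abs_div, abs_of_pos a1, abs_of_pos c1]
  refine (div_le_div_of_nonneg_left (abs_nonneg _) (by positivity) a5).trans (le_of_eq ?_)
  field_simp

end

/-- mixed radix value -/
def val : ℕ → (ℕ → ℕ) → (ℕ → ℕ) → ℕ
  | 0, _, _ => 0
  | l + 1, q, D => D 0 * ∏ s ∈ range l, q (s + 1) + val l (fun s => q (s + 1)) fun s => D (s + 1)

lemma val_congr (l : ℕ) : ∀ q q' D D' : ℕ → ℕ, (∀ s < l, q s = q' s) → (∀ s < l, D s = D' s) →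
    val l q D = val l q' D' := by
  induction l with
  | zero => intros; rfl
  | succ l ih =>
    intro q q' D D' h h'
    rw [val, val, h' 0 (by omega), prod_congr rfl fun s hs => h (s + 1) (by have := mem_range.mp hs; omega),
      ih _ _ _ _ (fun s hs => h (s + 1) (by omega)) fun s hs => h' (s + 1) (by omega)]

lemma Ex_val (l : ℕ) : ∀ (q : ℕ → ℕ) (G : ℕ → ℝ), Ex l q (fun D => G (val l q D)) =
    (∑ v ∈ range (∏ s ∈ range l, q s), G v) / (∏ s ∈ range l, q s : ℕ) := by
  induction l with
  | zero => simp [Ex, val]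
  | succ l ih =>
    intro q G
    rw [prod_range_succ', mul_comm, sum_range_mul, Nat.cast_mul, mul_comm (q 0 : ℝ), ← div_div, sum_div]
    exact congrArg (· / (q 0 : ℝ)) (sum_congr rfl fun d _ =>
      ih (fun s => q (s + 1)) fun v => G (d * ∏ s ∈ range l, q (s + 1) + v))

lemma orb_val (z : ℕ → ℕ) (x : ℝ) (l : ℕ) : ∀ j, 1 ≤ j → (∏ s ∈ range l, z (j + s) : ℕ) * orb z x j =
    val l (fun s => z (j + s)) (fun s => dig z x (j + s)) + orb z x (j + l) := by
  induction l with
  | zero => simp [val]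
  | succ l ih =>
    intro j hj
    have h1 : z j * orb z x j = dig z x j + orb z x (j + 1) := by
      have a1 : (dig z x j : ℝ) = ⌊z j * orb z x j⌋ :=
        natCast_floor_eq_intCast_floor (mul_nonneg (by positivity) (Int.fract_nonneg _))
      have a2 : orb z x (j + 1) = Int.fract (z j * orb z x j) := by
        rw [orb, orb, prod_Ico_succ_top hj, eq_comm, Int.fract_eq_fract]
        exact ⟨-(z j * ⌊(∏ i ∈ Ico 1 j, (z i : ℝ)) * x⌋), by rw [Int.fract]; push_cast; ring⟩
      rw [a1, a2, Int.floor_add_fract]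
    have h2 := ih (j + 1) (by omega)
    simp only [add_assoc, add_comm 1] at h2
    rw [prod_range_succ', val]
    push_cast at h2 ⊢
    simp only [add_zero]
    rw [mul_assoc, h1]
    linear_combination h2

lemma dnormal {z : ℕ → ℕ} (hz : ∀ n, 2 ≤ z n ∧ z n ≤ 32768) {o : ℕ} {x : ℝ} (hD : Dec z)
    (hx : Normal o z x) : DistNormal z x := by
  have hz0 : ∀ n, 0 < z n := fun n => lt_of_lt_of_le two_pos (hz n).1
  have key : ∀ a : ℝ, 0 ≤ a → a ≤ 1 → Null fun j => (if orb z x (j + 2) < a then 1 else 0) - a := by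
    intro a a0 a1
    refine null_sq fun η hη => ?_
    obtain ⟨l, hl⟩ := exists_pow_lt_of_lt_one (half_pos hη) (show (1 / 2 : ℝ) < 1 by norm_num)
    have k1 := fun c : ℝ => (main hz0 (dig_lt hz0 x) hD (null_normal hz hx) l
      (fun B D => if val l B D + c < a * (∏ s ∈ range l, B s : ℕ) then 1 else 0)
      (fun _ _ => by split_ifs <;> simp)
      (fun _ D1 D2 h => by simp only [val_congr l _ _ _ _ (fun _ _ => rfl) h])
      (fun _ D1 D2 h => by simp only [val_congr l _ _ _ _ h fun _ _ => rfl,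
        prod_congr rfl fun s hs => h s (mem_range.mp hs)])).shift (C := 1 + 1) (fun j =>
        (abs_sub _ _).trans (add_le_add (by split_ifs <;> simp) (Ex_abs _ _ (fun s => hz0 _) _
          fun _ => by split_ifs <;> simp))) 2
    refine ⟨_, _, 0, k1 0, k1 1, fun n => ?_⟩
    have k2 : ∀ j, 1 ≤ j → ∀ P v, P = ∏ s ∈ range l, z (j + s) →
        v = val l (fun s => z (j + s)) (fun s => dig z x (j + s)) →
        ((if (v : ℝ) + 1 < a * P then 1 else 0) -
          (∑ v ∈ range P, if (v : ℝ) + 1 < a * P then (1 : ℝ) else 0) / P - η ≤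
          (if orb z x j < a then 1 else 0) - a) ∧ (if orb z x j < a then 1 else 0) - a ≤
          (if (v : ℝ) + 0 < a * P then 1 else 0) -
          (∑ v ∈ range P, if (v : ℝ) + 0 < a * P then (1 : ℝ) else 0) / P + η := by
      intro j hj P v hP hv
      have c1 := orb_val z x l j hj
      rw [← hP, ← hv] at c1
      have c2 : 0 ≤ orb z x (j + l) := Int.fract_nonneg _
      have c3 : orb z x (j + l) < 1 := Int.fract_lt_one _
      have c4 : (2 : ℝ) ^ l ≤ P := by
        have := pow_card_le_prod (range l) (fun s => z (j + s)) 2 fun _ _ => (hz _).1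
        rw [card_range, ← hP] at this
        exact_mod_cast this
      have c5 : (0 : ℝ) < P := lt_of_lt_of_le (by positivity) c4
      have c6 : 2 ≤ η * P := by
        rw [one_div, inv_pow, inv_lt_iff_one_lt_mul₀ (by positivity)] at hl
        nlinarith
      have c7 := Nat.floor_le (mul_nonneg a0 c5.le)
      have c8 := Nat.lt_floor_add_one (a * P)
      constructor
      · have d1 : a - η ≤ (∑ v ∈ range P, if (v : ℝ) + 1 < a * P then (1 : ℝ) else 0) / P := by
          rw [sum_boole, le_div_iff₀ c5]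
          have d2 : ⌊a * P⌋₊ - 1 ≤ ((range P).filter fun v : ℕ => (v : ℝ) + 1 < a * P).card := by
            refine (card_range _).ge.trans (card_le_card fun v hv => ?_)
            have d3 : (v : ℝ) + 2 ≤ ⌊a * P⌋₊ := by exact_mod_cast (by have := mem_range.mp hv; omega)
            exact mem_filter.mpr ⟨mem_range.mpr (by exact_mod_cast (by nlinarith : (v : ℝ) < P)),
              by linarith⟩
          generalize ((range P).filter fun v : ℕ => (v : ℝ) + 1 < a * P).card = w at d2
          have d3 : (⌊a * P⌋₊ : ℝ) ≤ w + 1 := by exact_mod_cast (by omega)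
          linarith
        have d2 : (if (v : ℝ) + 1 < a * P then (1 : ℝ) else 0) ≤ if orb z x j < a then 1 else 0 := by
          split_ifs with e1 e2
          · exact le_rfl
          · exact absurd (lt_of_mul_lt_mul_left (by linarith) c5.le) e2
          · norm_num
          · exact le_rfl
        linarith
      · have d1 : (∑ v ∈ range P, if (v : ℝ) + 0 < a * P then (1 : ℝ) else 0) / P ≤ a + η := by
          rw [sum_boole, div_le_iff₀ c5]
          have d2 : ((range P).filter fun v : ℕ => (v : ℝ) + 0 < a * P).card ≤ ⌊a * P⌋₊ + 1 :=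
            (card_le_card fun v hv => mem_range.mpr (Nat.lt_succ_of_le (Nat.le_floor
              (by linarith [(mem_filter.mp hv).2])))).trans (card_range _).le
          have d3 : (((range P).filter fun v : ℕ => (v : ℝ) + 0 < a * P).card : ℝ) ≤ ⌊a * P⌋₊ + 1 := by
            exact_mod_cast d2
          linarith
        have d2 : (if orb z x j < a then (1 : ℝ) else 0) ≤ if (v : ℝ) + 0 < a * P then 1 else 0 := by
          split_ifs with e1 e2
          · exact le_rfl
          · exact absurd (by linarith [mul_lt_mul_of_pos_left e1 c5]) e2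
          · norm_num
          · exact le_rfl
        linarith
    have k3 : ∀ (c : ℝ) j, Ex l (fun s => z (j + s)) (fun D => if val l (fun s => z (j + s)) D + c <
        a * (∏ s ∈ range l, z (j + s) : ℕ) then 1 else 0) = _ := fun c j =>
      Ex_val l _ fun v => if v + c < a * (∏ s ∈ range l, z (j + s) : ℕ) then 1 else 0
    simp only [k3]
    rw [sub_zero, add_zero, show η * n = ∑ j ∈ range n, η by simp [mul_comm],
      ← sum_sub_distrib, ← sum_add_distrib]
    exact ⟨sum_le_sum fun j _ => (k2 _ (by omega) _ _ rfl rfl).1,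
      sum_le_sum fun j _ => (k2 _ (by omega) _ _ rfl rfl).2⟩
  intro a b a0 ab b1
  have h := ((key b (a0.trans ab) b1).add ((key a a0 (ab.trans b1)).mul (-1))).add_const (b - a)
  rw [zero_add] at h
  refine h.congr' ?_
  filter_upwards [eventually_gt_atTop 0] with n hn
  have : (n : ℝ) ≠ 0 := by exact_mod_cast hn.ne'
  rw [← sum_boole, sum_Icc1, div_add' _ _ _ this, show (b - a) * n = ∑ j ∈ range n, (b - a) by
    simp; ring, ← sum_add_distrib]
  congr 1
  refine sum_congr rfl fun j _ => ?_
  rw [show j + 1 + 1 = j + 2 from rfl]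
  by_cases c1 : orb z x (j + 2) < a
  · simp [c1, c1.trans_le ab, not_le.mpr c1]
  · simp [c1, not_lt.mp c1]

end Pool.Agent.H2a07
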