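import Mathlib
import Pool.Agent.H.MP_2a076f_an.D

set_option autoImplicit false

namespace Pool.Agent.H2a07

open Finset Filter Topology MeasureTheory

lemma app {z : ℕ → ℕ} (hH : Hier z) {a : ℕ → ℝ} {M η : ℝ} (hη : 0 < η) (hM : ∀ j, |a j| ≤ M) (l : ℕ)
    (h : ∀ j j', (∀ s < l, z (j + s) = z (j' + s)) → |a j - a j'| ≤ η / 2) :
    ∃ c C, ∀ n : ℕ, (c - η) * n - C ≤ ∑ j ∈ range n, a j ∧ ∑ j ∈ range n, a j ≤ (c + η) * n + C := by
  obtain ⟨k, hk⟩ := exists_nat_ge ((l + 3) * (2 * M) / (η / 2))
  obtain ⟨P, m, σ, p1, p2, p3, p4, -⟩ := hH k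
  have hM0 : 0 ≤ M := (abs_nonneg _).trans (hM 0)
  have hm : 0 < m := Nat.pos_of_ne_zero fun h => by simp [h] at p2
  have hK : 0 < m * P := Nat.mul_pos hm (by omega)
  have hK' : (0 : ℝ) < (m * P : ℕ) := by exact_mod_cast hK
  have h1 : ∀ u u', σ u = σ u' →
      |∑ s ∈ range P, a (u * P + s) - ∑ s ∈ range P, a (u' * P + s)| ≤ η * P := by
    intro u u' hu
    rw [← sum_sub_distrib]
    refine (abs_sum_le_sum_abs _ _).trans ((sum_le_sum (g := fun s => η / 2 +
      (if P ≤ s + (l + 3) then 1 else 0) * (2 * M)) fun s _ => ?_).trans ?_)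
    · split_ifs with c
      · exact (abs_sub _ _).trans (by linarith [hM (u * P + s), hM (u' * P + s)])
      · simpa using h _ _ fun i hi => by simpa only [add_assoc] using p4 u u' hu (s + i) (by omega)
    · rw [sum_add_distrib, ← sum_mul, sum_boole, sum_const, card_range, nsmul_eq_mul]
      have a1 : ((range P).filter fun s => P ≤ s + (l + 3)).card ≤ l + 3 :=
        (card_le_card (t := Ico (P - (l + 3)) P) fun s hs => by
          simp only [mem_filter, mem_range, mem_Ico] at hs ⊢; omega).trans (by rw [Nat.card_Ico]; omega)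
      have a2 := mul_le_mul_of_nonneg_right (show (((range P).filter fun s => P ≤ s + (l + 3)).card : ℝ) ≤
        l + 3 by exact_mod_cast a1)
        (show 0 ≤ 2 * M by linarith)
      have a3 := mul_le_mul_of_nonneg_right (show (k : ℝ) ≤ P by exact_mod_cast p1.le) (half_pos hη).le
      rw [div_le_iff₀ (half_pos hη)] at hk
      linarith
  choose! τ t1 t2 using fun v hv => (p3 0).surjOn (a := v) hv
  obtain ⟨c, hc⟩ : ∃ c : ℝ, c * (m * P : ℕ) = ∑ v ∈ range m, ∑ s ∈ range P, a ((0 * m + τ v) * P + s) :=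
    ⟨_, div_mul_cancel₀ _ hK'.ne'⟩
  have h2 : ∀ U, |∑ s ∈ range (m * P), a (U * (m * P) + s) - c * (m * P : ℕ)| ≤ η * (m * P : ℕ) := by
    intro U
    rw [hc, ← sum_nbij (fun t => σ (U * m + t)) (p3 U).mapsTo (p3 U).injOn (p3 U).surjOn
      fun _ _ => rfl, sum_range_mul, ← sum_sub_distrib]
    refine (abs_sum_le_sum_abs _ _).trans ((sum_le_card_nsmul _ _ (η * P) fun t ht => ?_).trans
      (by simp; linarith))
    have := h1 (U * m + t) _ (t2 _ ((p3 U).mapsTo ht)).symm
    simpa only [add_mul (U * m), mul_assoc, add_assoc] using this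
  obtain ⟨C1, c1⟩ := blk_le (h := c + η) hK hM fun U => by linarith [(abs_le.mp (h2 U)).2]
  obtain ⟨C2, c2⟩ := blk_le (a := fun j => -a j) (M := M) (h := -(c - η)) hK (by simpa using hM)
    fun U => by rw [sum_neg_distrib]; linarith [(abs_le.mp (h2 U)).1]
  refine ⟨c, max C1 C2, fun n => ?_⟩
  have := c2 n
  rw [sum_neg_distrib] at this
  constructor <;> linarith [c1 n, le_max_left C1 C2, le_max_right C1 C2]

lemma rare {z : ℕ → ℕ} (hH : Hier z) (k : ℕ) : ∃ P m : ℕ, k < P ∧ 2 ^ P ≤ m ^ 12 ∧ ∀ p : ℕ → Prop,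
    (∀ j j', p j → p j' → ∀ s < 2 * P, z (j + s) = z (j' + s)) → ∀ [DecidablePred p],
      ∃ C, ∀ n : ℕ, ∑ j ∈ range n, (if p j then (1 : ℝ) else 0) ≤ 2 / m * n + C := by
  obtain ⟨P, m, σ, p1, p2, p3, -, p5⟩ := hH k
  have hm : 0 < m := Nat.pos_of_ne_zero fun h => by simp [h] at p2
  refine ⟨P, m, p1, p2, fun p hp _ => blk_le (K := m * P) (M := 1) (Nat.mul_pos hm (by omega))
    (fun j => by split_ifs <;> simp) fun U => ?_⟩
  rw [sum_range_mul, sum_comm]
  refine (sum_le_card_nsmul _ _ 2 fun s hs => ?_).trans (le_of_eq (by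
    have : (m : ℝ) ≠ 0 := by exact_mod_cast hm.ne'
    simp; field_simp))
  have hs' := mem_range.mp hs
  rw [sum_boole]
  refine Nat.cast_le_ofNat.mpr ((card_le_card (t := insert (m - 1) ((range (m - 1)).filter
    fun t => p (U * (m * P) + (t * P + s)))) fun t ht => ?_).trans ((card_insert_le _ _).trans
      (Nat.succ_le_succ (card_le_one.mpr fun t ht t' ht' => ?_))))
  · simp only [mem_filter, mem_range, mem_insert] at ht ⊢
    by_cases h : t = m - 1
    · exact Or.inl h
    · exact Or.inr ⟨by omega, ht.2⟩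
  · simp only [mem_filter, mem_range] at ht ht'
    refine Nat.succ_injective ((p3 U).injOn (mem_coe.mpr (mem_range.mpr (by omega)))
      (mem_coe.mpr (mem_range.mpr (by omega))) ?_)
    by_contra hne
    obtain ⟨i, i1, i2⟩ := p5 _ _ hne
    have := hp _ _ ht.2 ht'.2 (P - s + i) (by omega)
    obtain ⟨r, rfl⟩ := Nat.exists_eq_add_of_le hs'.le
    rw [Nat.add_sub_cancel_left] at this
    refine i2 ?_
    convert this using 2 <;> simp only [Nat.succ_eq_add_one] <;> ring

lemma nondet {z : ℕ → ℕ} (hz : ∀ n, 2 ≤ z n ∧ z n ≤ 32768) (hH : Hier z) : NonDet z := by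
  classical
  let X := closure (Set.range fun (n s : ℕ) => z (n + s))
  have hsub : X ⊆ Set.pi Set.univ fun _ => Set.Icc 2 32768 :=
    closure_minimal (by rintro _ ⟨n, rfl⟩ s _; exact hz _) (isClosed_set_pi fun _ _ => isClosed_Icc)
  have : CompactSpace X := isCompact_iff_compactSpace.mp
    ((isCompact_univ_pi fun _ => (Set.finite_Icc _ _).isCompact).of_isClosed_subset isClosed_closure hsub)
  let _ : MetricSpace X := TopologicalSpace.metrizableSpaceMetric X
  have hc : Continuous fun (y : ℕ → ℕ) (s : ℕ) => y (s + 1) := by fun_prop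
  let T : X → X := fun y => ⟨fun s => y.1 (s + 1), map_mem_closure hc y.2 (by
    rintro _ ⟨n, rfl⟩; exact ⟨n + 1, funext fun s => by simp only [add_assoc, add_comm 1]⟩)⟩
  have hT : Continuous T := (hc.comp continuous_subtype_val).subtype_mk _
  let p : ℕ → X := fun n => ⟨fun s => z (n + s), subset_closure ⟨n, rfl⟩⟩
  have T1 : ∀ n (y : X) s, (T^[n] y).1 s = y.1 (s + n) := fun n => by
    induction n with
    | zero => simp
    | succ n ih => intro y s; rw [Function.iterate_succ_apply, ih]; rfl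
  have T2 : ∀ n j, T^[n] (p j) = p (j + n) := fun n j => Subtype.ext (funext fun s => by
    rw [T1]; simp only [p, add_assoc, add_comm n])
  have hf : ∀ s, Continuous fun y : X => y.1 s := fun s => (continuous_apply s).comp continuous_subtype_val
  have uc : ∀ F : X → ℝ, Continuous F → ∀ η > 0, ∃ l, ∀ j j', (∀ s < l, z (j + s) = z (j' + s)) →
      |F (p j) - F (p j')| ≤ η := by
    intro F hF η hη
    by_contra hcon
    push Not at hcon
    have cl : ∀ l, IsClosed {q : X × X | (∀ s < l, q.1.1 s = q.2.1 s) ∧ η ≤ |F q.1 - F q.2|} := fun l => by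
      simp only [Set.ofPred_and, Set.ofPred_forall]
      exact (isClosed_iInter fun s => isClosed_iInter fun _ => isClosed_eq ((hf s).comp continuous_fst)
        ((hf s).comp continuous_snd)).inter (isClosed_le continuous_const (by fun_prop))
    obtain ⟨q, hq⟩ := IsCompact.nonempty_iInter_of_sequence_nonempty_isCompact_isClosed
      (fun l => {q : X × X | (∀ s < l, q.1.1 s = q.2.1 s) ∧ η ≤ |F q.1 - F q.2|}) (fun l q hq => ⟨fun s hs => hq.1 s (by omega), hq.2⟩) (fun l => by
        obtain ⟨j, j', h1, h2⟩ := hcon l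
        exact ⟨(p j, p j'), h1, h2.le⟩) (cl 0).isCompact cl
    rw [Set.mem_iInter] at hq
    have := (hq 0).2
    rw [show q.1 = q.2 from Subtype.ext (funext fun s => (hq (s + 1)).1 s (by omega))] at this
    simp at this
    linarith
  have bd : ∀ F : X → ℝ, Continuous F → ∃ M, ∀ y, |F y| ≤ M := fun F hF =>
    (isCompact_univ.exists_bound_of_continuousOn hF.continuousOn).imp fun _ h y => h y trivial
  let ν : ℕ → ProbabilityMeasure X := fun N =>
    ⟨((N + 1 : ℕ) : ENNReal)⁻¹ • ∑ j ∈ range (N + 1), Measure.dirac (p j), ⟨by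
      simp [ENNReal.inv_mul_cancel]⟩⟩
  obtain ⟨μ, hμ⟩ : ∃ μ, Tendsto ν (Ultrafilter.of atTop : Ultrafilter ℕ) (𝓝 μ) :=
    ⟨_, ((Ultrafilter.of atTop).map ν).le_nhds_lim⟩
  have up : ∀ F : X → ℝ, Continuous F → ∀ h C : ℝ, (∀ n : ℕ, ∑ j ∈ range n, F (p j) ≤ h * n + C) →
      ∫ y, F y ∂μ ≤ h := by
    intro F hF h C H
    have a1 := ProbabilityMeasure.tendsto_iff_forall_integral_tendsto.mp hμ
      (BoundedContinuousFunction.mkOfCompact ⟨F, hF⟩)
    have a2 := (((tendsto_const_div_atTop_nhds_zero_nat C).comp (tendsto_add_atTop_nat 1)).const_add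
      h).mono_left (Ultrafilter.of_le atTop)
    rw [add_zero] at a2
    refine le_of_tendsto_of_tendsto' a1 a2 fun N => ?_
    have a3 : (0 : ℝ) < (N + 1 : ℕ) := by positivity
    simp only [ν, ProbabilityMeasure.coe_mk, integral_smul_measure, Function.comp]
    rw [integral_finsetSum_measure fun _ _ => BoundedContinuousFunction.integrable _ _]
    simp only [integral_dirac, ENNReal.toReal_inv, ENNReal.toReal_natCast, smul_eq_mul]
    rw [inv_mul_le_iff₀ a3, mul_add, mul_div_cancel₀ _ a3.ne', mul_comm]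
    exact H _
  have lo : ∀ F : X → ℝ, Continuous F → ∀ h C : ℝ, (∀ n : ℕ, h * n - C ≤ ∑ j ∈ range n, F (p j)) →
      h ≤ ∫ y, F y ∂μ := fun F hF h C H => by
    have := up (fun y => -F y) hF.neg (-h) C fun n => by rw [sum_neg_distrib]; linarith [H n]
    rwa [integral_neg, neg_le_neg_iff] at this
  have gen : ∀ F : X → ℝ, Continuous F → Null fun j => F (p (j + 1)) - ∫ y, F y ∂μ := by
    intro F hF
    obtain ⟨M, hM⟩ := bd F hF
    refine Null.shift (a := fun j => F (p j) - ∫ y, F y ∂μ) (null_sq fun η hη => ?_)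
      (fun j => (abs_sub _ _).trans (add_le_add (hM _) le_rfl)) 1
    obtain ⟨l, hl⟩ := uc F hF (η / 2 / 2) (by positivity)
    obtain ⟨c, C, hC⟩ := app hH (half_pos hη) (fun j => hM (p j)) l hl
    have a1 := up F hF _ _ fun n => (hC n).2
    have a2 := lo F hF _ _ fun n => (hC n).1
    refine ⟨0, 0, C, by simp [Null], by simp [Null], fun n => ?_⟩
    have a3 := mul_le_mul_of_nonneg_right a1 (Nat.cast_nonneg (α := ℝ) n)
    have a4 := mul_le_mul_of_nonneg_right a2 (Nat.cast_nonneg (α := ℝ) n)
    simp only [Pi.zero_apply, sum_const_zero, sum_sub_distrib, sum_const, card_range, nsmul_eq_mul]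
    constructor <;> linarith [(hC n).1, (hC n).2]
  refine ⟨X, inferInstance, inferInstance, inferInstance, inferInstance, inferInstance, μ, T,
    fun y => y.1 0, p 0, inferInstance, ⟨fun U hU ⟨y, hy⟩ h0 => ?_⟩, hT, ⟨hT.measurable,
      ext_of_forall_integral_eq_of_IsFiniteMeasure fun F => ?_⟩, hf 0, fun y => (hsub y.2 0 trivial).1,
    ?_, fun F hF _ => ?_, fun n _ => by rw [T2]; simp [p], ?_⟩
  · obtain ⟨V, v1, rfl⟩ := isOpen_induced_iff.mp hU
    obtain ⟨_, v2, j, rfl⟩ := mem_closure_iff.mp y.2 V v1 hy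
    obtain ⟨F, f0, f1, f2⟩ := exists_continuous_zero_one_of_isClosed hU.isClosed_compl
      (isClosed_singleton (x := p j)) (by simpa using v2)
    obtain ⟨l, hl⟩ := uc F F.continuous (1 / 2) (by norm_num)
    obtain ⟨h, C, c1, c2⟩ := recur hH j l (a := fun i => F (p i)) (c := 1 / 2) (by norm_num)
      (fun i => (f2 _).1) (fun i => (f2 _).2) fun i hi => by
        have := (abs_le.mp (hl i j hi)).1
        rw [f1 rfl, Pi.one_apply] at this
        linarith
    have := lo F F.continuous h C c2
    rw [integral_eq_zero_of_ae (ae_iff.mpr (measure_mono_null (fun y hy => by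
      by_contra hn; exact hy (f0 hn)) h0))] at this
    linarith
  · rw [integral_map hT.aemeasurable F.continuous.aestronglyMeasurable]
    obtain ⟨M, hM⟩ := bd F F.continuous
    have a1 := ((gen F F.continuous).shift (fun j => (abs_sub _ _).trans (add_le_add (hM _) le_rfl))
      1).add ((gen (fun y => F (T y)) (F.continuous.comp hT)).mul (-1))
    have a2 : ∀ j, T (p j) = p (j + 1) := T2 1
    refine sub_eq_zero.mp (tendsto_nhds_unique (tendsto_const_nhds.congr' ?_) a1)
    filter_upwards [eventually_gt_atTop 0] with n hn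
    have : (n : ℝ) ≠ 0 := by exact_mod_cast hn.ne'
    simp [a2]
    field_simp
  · change TopologicalSpace.induced Subtype.val Pi.topologicalSpace = _
    simp only [T1, zero_add, Pi.topologicalSpace, induced_iInf, induced_compose]
    rfl
  · have := (gen F hF).add_const (∫ y, F y ∂μ)
    rw [zero_add] at this
    refine this.congr' ?_
    filter_upwards [eventually_gt_atTop 0] with n hn
    have : (n : ℝ) ≠ 0 := by exact_mod_cast hn.ne'
    rw [sum_Icc1]
    simp [T2]
    field_simp
    ring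
  · let g : X → Fin 32769 := fun y => Fin.ofNat 32769 (y.1 0)
    have hg : Measurable g := (Measurable.of_discrete (f := Fin.ofNat 32769)).comp (hf 0).measurable
    refine lt_of_lt_of_le (ENNReal.ofReal_pos.mpr (show 0 < Real.log 2 / 48 by positivity))
      (le_iSup_of_le 32769 (le_iSup₂_of_le g hg (le_limsup_of_frequently_le'
        (frequently_atTop.mpr fun k => ?_))))
    obtain ⟨P, m, p1, p2, p3⟩ := rare hH (k + 24)
    refine ⟨2 * P, by omega, ENNReal.ofReal_le_ofReal ?_⟩
    have hm : (0 : ℝ) < m := by exact_mod_cast Nat.pos_of_ne_zero fun h => by simp [h] at p2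
    have hP : (24 : ℝ) ≤ P := by exact_mod_cast (by omega)
    have cl : ∀ w : Fin (2 * P) → Fin 32769, IsClopen {y | ∀ i : Fin (2 * P), g (T^[i] y) = w i} :=
      fun w => by
        rw [Set.ofPred_forall]
        exact isClopen_iInter_of_finite fun i => (isClopen_discrete {n | Fin.ofNat 32769 n = w i}).preimage
          ((hf 0).comp (hT.iterate i))
    have a1 : ∀ w : Fin (2 * P) → Fin 32769,
        (μ : Measure X).real {y | ∀ i : Fin (2 * P), g (T^[i] y) = w i} ≤ 2 / m := fun w => by
      obtain ⟨C, hC⟩ := p3 (fun j => ∀ i : Fin (2 * P), g (T^[i] (p j)) = w i) fun j j' h h' s hs => by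
        have := congrArg Fin.val ((h ⟨s, hs⟩).trans (h' ⟨s, hs⟩).symm)
        simpa [g, T2, p, Nat.mod_eq_of_lt (Nat.lt_succ_of_le (hz _).2)] using this
      rw [← integral_indicator_one (cl w).isClosed.measurableSet]
      exact up _ ((cl w).continuous_indicator continuous_const) _ C fun n => by
        simp only [Set.indicator_apply, Set.mem_ofPred_eq]
        exact hC n
    have a2 : ∑ w : Fin (2 * P) → Fin 32769,
        (μ : Measure X).real {y | ∀ i : Fin (2 * P), g (T^[i] y) = w i} = 1 := by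
      have := sum_measureReal_preimage_singleton (μ := (μ : Measure X)) univ
        (f := fun y (i : Fin (2 * P)) => g (T^[i] y)) fun w _ => by
          simpa only [Set.preimage, Set.mem_singleton_iff, funext_iff] using (cl w).isClosed.measurableSet
      simpa only [Set.preimage, Set.mem_singleton_iff, funext_iff, coe_univ, Set.mem_univ,
        Set.ofPred_true, probReal_univ] using this
    have a3 : P * Real.log 2 ≤ 12 * Real.log m := by
      have := Real.log_le_log (by positivity) (show (2 : ℝ) ^ P ≤ m ^ 12 by exact_mod_cast p2)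
      simpa only [Real.log_pow, Nat.cast_ofNat] using this
    rw [le_div_iff₀ (by push_cast; linarith)]
    refine le_trans ?_ (sum_le_sum (f := fun w => (μ : Measure X).real
      {y | ∀ i : Fin (2 * P), g (T^[i] y) = w i} * -Real.log (2 / m)) fun w _ => ?_)
    · rw [← sum_mul, a2, Real.log_div (by norm_num) hm.ne']
      push_cast
      nlinarith [Real.log_pos one_lt_two]
    · rcases (measureReal_nonneg (μ := (μ : Measure X))
        (s := {y | ∀ i : Fin (2 * P), g (T^[i] y) = w i})).eq_or_lt with h | h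
      · simp [← h]
      · rw [Real.negMulLog, neg_mul, mul_neg, neg_le_neg_iff]
        exact mul_le_mul_of_nonneg_left (Real.log_le_log h (a1 w)) h.le

lemma exists_seq : ∃ Q : ℕ → ℕ, (∀ n, 2 ≤ Q n) ∧ NonDet Q ∧
    ∀ o x, Normal o Q x → UNormal Q x ∧ DistNormal Q x := by
  obtain ⟨z, h1, h2, h3⟩ := seq
  exact ⟨z, fun n => (h1 n).1, nondet h1 h3, fun o x hx => ⟨unormal h1 h2 h3 hx, dnormal h1 h2 hx⟩⟩

end Pool.Agent.H2a07
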